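import Mathlib
import Pool.Agent.H425R3.JL.L2

/-!
# Limit laws along families of finite sets along which the characters have means
-/

set_option autoImplicit false

open Filter Topology MeasureTheory
open Pool.Agent.H383.AP Pool.Agent.H425R3.JL

namespace Pool.Agent.Q209.GC

/-- the characters with frequencies in the group have means along the finite sets -/
def AvEx (Γ : AddSubgroup ℝ) (S : ℕ → Finset ℕ) : Prop :=
  ∀ θ ∈ Γ, ∃ L : ℂ, Tendsto (fun j => cav (S j) (chr θ)) atTop (𝓝 L)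

lemma TG_lim' {Γ : AddSubgroup ℝ} {S : ℕ → Finset ℕ} (hS : AvEx Γ S) {t : ℕ → ℂ} (ht : t ∈ TG Γ) :
    ∃ L : ℂ, Tendsto (fun j => cav (S j) t) atTop (𝓝 L) := by
  unfold TG at ht
  induction ht using Submodule.span_induction with
  | mem x hx =>
    obtain ⟨θ, hθ, rfl⟩ := hx
    exact hS θ hθ
  | zero => exact ⟨0, by
      have : ∀ j, cav (S j) 0 = 0 := fun j => by simp [cav]
      simp only [this]; exact tendsto_const_nhds⟩
  | add x y _ _ hx hy =>
    obtain ⟨L, hL⟩ := hx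
    obtain ⟨L', hL'⟩ := hy
    refine ⟨L + L', ?_⟩
    simp only [cav_add]
    exact hL.add hL'
  | smul c x _ hx =>
    obtain ⟨L, hL⟩ := hx
    refine ⟨c * L, ?_⟩
    simp only [cav_smul]
    exact hL.const_mul c

variable {ι : Type*} [Fintype ι]

/-- convergence of the averages -/
theorem conv2 {Γ : AddSubgroup ℝ} {U : ℕ → ℕ → ι → ℝ} (hU : ∀ M i, (fun n => ((U M n i : ℝ) : ℂ)) ∈ TG Γ)
    {e : ℕ → ι → ℝ} {S : ℕ → Finset ℕ} (hne : ∀ j, (S j).Nonempty) (hS : AvEx Γ S) (h : ApU U e S)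
    {f : (ι → ℝ) → ℝ} (hf : Continuous f) (hC : ∃ C : ℝ, ∀ x, |f x| ≤ C * (1 + q x)) :
    ∃ L : ℝ, Tendsto (fun j => fav (S j) (fun n => f (e n))) atTop (𝓝 L) := by
  apply cauchySeq_tendsto_of_complete
  rw [Metric.cauchySeq_iff]
  intro ε hε
  obtain ⟨t, ht, j1, hj1⟩ := approx hU hne h hf hC (η := ε/4) (by positivity)
  obtain ⟨L, hL⟩ := TG_lim' hS ht
  have hc : CauchySeq (fun j => cav (S j) t) := hL.cauchySeq
  rw [Metric.cauchySeq_iff] at hc
  obtain ⟨j2, hj2⟩ := hc (ε/4) (by positivity)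
  refine ⟨max j1 j2, fun m hm n hn => ?_⟩
  have a1 := (norm_cav_sub_le (S m) (fun n => ((f (e n) : ℝ) : ℂ)) t).trans (hj1 m (by omega))
  have a2 := (norm_cav_sub_le (S n) (fun n => ((f (e n) : ℝ) : ℂ)) t).trans (hj1 n (by omega))
  have a3 := hj2 m (by omega) n (by omega)
  rw [cav_ofReal] at a1 a2
  rw [dist_eq_norm] at a3
  rw [Real.dist_eq, ← Real.norm_eq_abs, ← Complex.norm_real, Complex.ofReal_sub]
  have e1 : ((fav (S m) (fun n => f (e n)) : ℝ) : ℂ) - ((fav (S n) (fun n => f (e n)) : ℝ) : ℂ) =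
      (((fav (S m) (fun n => f (e n)) : ℝ) : ℂ) - cav (S m) t) + (cav (S m) t - cav (S n) t) -
      (((fav (S n) (fun n => f (e n)) : ℝ) : ℂ) - cav (S n) t) := by ring
  rw [e1]
  refine lt_of_le_of_lt (norm_sub_le _ _) ?_
  refine lt_of_le_of_lt (add_le_add (norm_add_le _ _) le_rfl) ?_
  linarith


/-- existence of the limit law -/
theorem law2 {Γ : AddSubgroup ℝ} {U : ℕ → ℕ → ι → ℝ} (hU : ∀ M i, (fun n => ((U M n i : ℝ) : ℂ)) ∈ TG Γ)
    {e : ℕ → ι → ℝ} {S : ℕ → Finset ℕ} (hne : ∀ j, (S j).Nonempty) (hS : AvEx Γ S) (h : ApU U e S) :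
    ∃ μ : ProbabilityMeasure (ι → ℝ), Integrable q (μ : Measure (ι → ℝ)) ∧
    ∀ f : (ι → ℝ) → ℝ, Continuous f → (∃ C, ∀ x, |f x| ≤ C * (1 + q x)) →
      Tendsto (fun j => fav (S j) (fun n => f (e n))) atTop (𝓝 (∫ x, f x ∂(μ : Measure (ι → ℝ)))) := by
  obtain ⟨A, hA0, hA⟩ := sq_bdd hU hne h
  have hlim : ∀ g : (ι → ℝ) → ℝ, Continuous g → (∃ B, ∀ x, |g x| ≤ B) →
      ∃ L : ℝ, Tendsto (fun j => fav (S j) (fun n => g (e n))) atTop (𝓝 L) := by
    intro g hg hB
    obtain ⟨B, hB⟩ := hB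
    refine conv2 hU hne hS h hg ⟨B, fun x => ?_⟩
    have h1 := hB x
    have h2 : 0 ≤ B := (abs_nonneg _).trans h1
    nlinarith [q_nonneg x]
  haveI : ∀ j, IsProbabilityMeasure (emp (S j) e) := fun j => emp_prob (hne j) e
  set P : ℕ → ProbabilityMeasure (ι → ℝ) := fun j => ⟨emp (S j) e, inferInstance⟩ with hP
  have htight : IsTightMeasureSet {((ν : ProbabilityMeasure (ι → ℝ)) : Measure (ι → ℝ)) | ν ∈ Set.range P} := by
    rw [isTightMeasureSet_iff_exists_isCompact_measure_compl_le]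
    intro ε hε
    by_cases hεt : ε = ⊤
    · refine ⟨∅, isCompact_empty, fun ν _ => ?_⟩
      rw [hεt]; exact le_top
    set T : ℝ := (A + 1) / ε.toReal with hT
    have hε' : 0 < ε.toReal := ENNReal.toReal_pos hε.ne' hεt
    have hT0 : 0 < T := by positivity
    refine ⟨{x | q x ≤ T}, K_compact T, ?_⟩
    rintro _ ⟨ν, ⟨j, rfl⟩, rfl⟩
    have h1 := mul_meas_ge_le_lintegral (μ := emp (S j) e) (f := fun x => ENNReal.ofReal (q x))
      (q_cont.measurable.ennreal_ofReal) (ENNReal.ofReal T)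
    rw [emp_lint (hne j) e q_cont q_nonneg] at h1
    have h2 : (emp (S j) e) {x | q x ≤ T}ᶜ ≤ (emp (S j) e) {x | ENNReal.ofReal T ≤ ENNReal.ofReal (q x)} := by
      apply measure_mono
      intro x hx
      simp only [Set.mem_compl_iff, Set.mem_setOf_eq, not_le] at hx ⊢
      exact ENNReal.ofReal_le_ofReal hx.le
    have h3 : ENNReal.ofReal T * (emp (S j) e) {x | q x ≤ T}ᶜ ≤ ENNReal.ofReal (A + 1) := by
      refine (mul_le_mul_right h2 _).trans (h1.trans ?_)
      apply ENNReal.ofReal_le_ofReal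
      linarith [hA j]
    have h4 : ENNReal.ofReal (A + 1) = ENNReal.ofReal T * ε := by
      conv_rhs => rw [← ENNReal.ofReal_toReal hεt, ← ENNReal.ofReal_mul hT0.le]
      congr 1
      rw [hT]
      field_simp
    rw [h4] at h3
    exact (ENNReal.mul_le_mul_iff_right (by simpa using hT0) ENNReal.ofReal_ne_top).mp h3
  have hcomp : IsCompact (closure (Set.range P)) := isCompact_closure_of_isTightMeasureSet htight
  let W : Ultrafilter ℕ := Ultrafilter.of atTop
  obtain ⟨μ, -, hμ⟩ := hcomp.ultrafilter_le_nhds (W.map P)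
    (by
      rw [Filter.le_principal_iff]
      apply Filter.mem_of_superset (Filter.range_mem_map)
      exact subset_closure)
  have hW : (W : Filter ℕ) ≤ atTop := Ultrafilter.of_le atTop
  have hμ' : Tendsto P (W : Filter ℕ) (𝓝 μ) := hμ
  rw [ProbabilityMeasure.tendsto_iff_forall_integral_tendsto] at hμ'
  refine ⟨μ, ?_⟩
  apply law_of hU hne h
  intro g hg hB
  obtain ⟨L, hL⟩ := hlim g hg hB
  obtain ⟨B, hB⟩ := hB
  have h1 := hμ' (BoundedContinuousFunction.ofNormedAddCommGroup g hg B hB)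
  have h2 : Tendsto (fun j => fav (S j) (fun n => g (e n))) (W : Filter ℕ) (𝓝 (∫ x, g x ∂(μ : Measure (ι → ℝ)))) := by
    refine h1.congr ?_
    intro j
    exact emp_int (S j) e hg
  have h3 := hL.mono_left hW
  rw [← tendsto_nhds_unique h3 h2]
  exact hL


end Pool.Agent.Q209.GC
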