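import Mathlib
import Pool.Agent.H425R3.JL.L2

/-!
# Functions of the fractional parts of `u n + v` are approximated by trigonometric polynomials
-/

set_option autoImplicit false

open Filter Topology
open Pool.Agent.H383.AP Pool.Agent.H425R3.JL

namespace Pool.Agent.Q209.GC

/-- a lower bound for the distances of `u, 2 u, …, K u` to the integers -/
lemma dist_low {u : ℝ} (hu : Irrational u) (K : ℕ) : ∃ δ : ℝ, 0 < δ ∧ δ < 1 / 2 ∧
    ∀ k : ℕ, 1 ≤ k → k ≤ K → ∀ p : ℤ, 2 * δ ≤ |u * k - p| := by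
  induction K with
  | zero => exact ⟨1 / 4, by norm_num, by norm_num, fun k h1 h2 => by omega⟩
  | succ K ih =>
    obtain ⟨δ, h1, h2, h3⟩ := ih
    have hpos : 0 < |u * ((K + 1 : ℕ) : ℝ) - round (u * ((K + 1 : ℕ) : ℝ))| := by
      rw [abs_pos]
      intro h
      have h4 : Irrational (u * ((K + 1 : ℕ) : ℝ)) := hu.mul_natCast (by omega)
      exact h4 ⟨round (u * ((K + 1 : ℕ) : ℝ)), by push_cast; push_cast at h; linarith⟩
    refine ⟨min δ (|u * ((K + 1 : ℕ) : ℝ) - round (u * ((K + 1 : ℕ) : ℝ))| / 2),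
      lt_min h1 (by positivity), lt_of_le_of_lt (min_le_left _ _) h2, fun k hk1 hk2 p => ?_⟩
    rcases Nat.lt_or_ge K k with h | h
    · obtain rfl : k = K + 1 := by omega
      have h5 := round_le (u * ((K + 1 : ℕ) : ℝ)) p
      have h6 := min_le_right δ (|u * ((K + 1 : ℕ) : ℝ) - round (u * ((K + 1 : ℕ) : ℝ))| / 2)
      linarith
    · have h5 := h3 k hk1 h p
      have h6 := min_le_left δ (|u * ((K + 1 : ℕ) : ℝ) - round (u * ((K + 1 : ℕ) : ℝ))| / 2)
      linarith

/-- the numbers with small distance to the integers are rare -/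
lemma rare {u : ℝ} (hu : Irrational u) (v : ℝ) {ε : ℝ} (hε : 0 < ε) :
    ∃ δ : ℝ, 0 < δ ∧ δ < 1 / 2 ∧ ∃ N0 : ℕ, ∀ N : ℕ, N0 ≤ N →
      (((Finset.range N).filter (fun n : ℕ => Int.fract (u * n + v) < δ ∨
        1 - δ < Int.fract (u * n + v))).card : ℝ) ≤ ε * N := by
  obtain ⟨K, hK⟩ := exists_nat_gt (2 / ε)
  have hK0 : (0 : ℝ) < K := lt_trans (by positivity) hK
  have hK1 : 0 < K := by exact_mod_cast hK0
  obtain ⟨δ, h1, h2, h3⟩ := dist_low hu K
  refine ⟨δ, h1, h2, ⌈2 / ε⌉₊, fun N hN => ?_⟩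
  set B := (Finset.range N).filter (fun n : ℕ => Int.fract (u * n + v) < δ ∨
        1 - δ < Int.fract (u * n + v)) with hB
  have near : ∀ n ∈ B, ∃ p : ℤ, |u * n + v - p| < δ := by
    intro n hn
    rw [hB, Finset.mem_filter] at hn
    have hf := Int.fract_nonneg (u * n + v)
    have hf1 := Int.fract_lt_one (u * n + v)
    have hfl := Int.self_sub_floor (u * n + v)
    rcases hn.2 with h | h
    · refine ⟨⌊u * n + v⌋, ?_⟩
      rw [hfl, abs_of_nonneg hf]; exact h
    · refine ⟨⌊u * n + v⌋ + 1, ?_⟩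
      push_cast
      rw [abs_lt]; constructor <;> linarith
  have inj : ∀ n ∈ B, ∀ n' ∈ B, n < n' → n' - n ≤ K → False := by
    intro n hn n' hn' hlt hle
    obtain ⟨p, hp⟩ := near n hn
    obtain ⟨p', hp'⟩ := near n' hn'
    have h4 := h3 (n' - n) (by omega) hle (p' - p)
    rw [Nat.cast_sub hlt.le] at h4
    push_cast at h4
    have h5 : |u * ((n' : ℝ) - n) - (p' - p)| < 2 * δ := by
      have e : u * ((n' : ℝ) - n) - (p' - p) = (u * n' + v - p') - (u * n + v - p) := by ring
      rw [e]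
      exact lt_of_le_of_lt (abs_sub _ _) (by linarith)
    linarith
  have hcard : B.card ≤ (Finset.range (N / K + 1)).card := by
    apply Finset.card_le_card_of_injOn (fun n => n / K)
    · intro n hn
      rw [Finset.mem_coe, hB, Finset.mem_filter, Finset.mem_range] at hn
      rw [Finset.mem_coe, Finset.mem_range]
      have := Nat.div_le_div_right (c := K) hn.1.le
      show n / K < N / K + 1
      omega
    · intro n hn n' hn' he
      have he' : n / K = n' / K := he
      rw [Finset.mem_coe] at hn hn'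
      have a1 := Nat.div_add_mod n K
      have a2 := Nat.div_add_mod n' K
      have a3 := Nat.mod_lt n hK1
      have a4 := Nat.mod_lt n' hK1
      rw [he'] at a1
      rcases lt_trichotomy n n' with h | h | h
      · exact (inj n hn n' hn' h (by omega)).elim
      · exact h
      · exact (inj n' hn' n hn h (by omega)).elim
  rw [Finset.card_range] at hcard
  have hN' : 2 / ε ≤ N := (Nat.le_ceil _).trans (by exact_mod_cast hN)
  have h6 : ((N / K : ℕ) : ℝ) ≤ N / K := Nat.cast_div_le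
  have h7 : (N : ℝ) / K ≤ ε / 2 * N := by
    rw [div_le_iff₀ hK0]
    have : 2 / ε * ε = 2 := by field_simp
    have h8 : 1 ≤ ε / 2 * K := by nlinarith
    nlinarith [Nat.cast_nonneg (α := ℝ) N]
  have h9 : 1 ≤ ε / 2 * N := by
    have : 2 / ε * ε = 2 := by field_simp
    nlinarith
  calc (B.card : ℝ) ≤ ((N / K + 1 : ℕ) : ℝ) := by exact_mod_cast hcard
    _ ≤ ε * N := by push_cast; linarith

/-- evaluation of a trigonometric polynomial on the circle along `u n + v` -/
lemma eval_TG {u v : ℝ} {P : C(AddCircle (1 : ℝ), ℂ)}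
    (hP : P ∈ Submodule.span ℂ (Set.range (fourier (T := (1 : ℝ))))) :
    (fun n : ℕ => P ((u * n + v : ℝ) : AddCircle (1 : ℝ))) ∈ TG (AddSubgroup.zmultiples u) := by
  induction hP using Submodule.span_induction with
  | mem x hx =>
    obtain ⟨k, rfl⟩ := hx
    have e : (fun n : ℕ => fourier k ((u * n + v : ℝ) : AddCircle (1 : ℝ))) =
        Complex.exp (2 * Real.pi * Complex.I * k * v) • chr ((k : ℝ) * u) := by
      funext n
      rw [fourier_coe_apply, Pi.smul_apply, smul_eq_mul]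
      unfold chr
      rw [← Complex.exp_add]
      congr 1
      push_cast
      ring
    rw [e]
    refine (TG _).smul_mem _ (TG_chr ?_)
    rw [AddSubgroup.mem_zmultiples_iff]
    exact ⟨k, by simp⟩
  | zero => exact (TG _).zero_mem
  | add x y _ _ hx hy => exact (TG _).add_mem hx hy
  | smul c x _ hx => exact (TG _).smul_mem c hx

/-- **approximation in mean** of `H` of the fractional part -/
theorem fract_approx {u : ℝ} (hu : Irrational u) (v : ℝ) {H : ℝ → ℂ}
    (hH : ContinuousOn H (Set.Icc 0 1)) {ε : ℝ} (hε : 0 < ε) :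
    ∃ t : ℕ → ℂ, t ∈ TG (AddSubgroup.zmultiples u) ∧ ∃ N0 : ℕ, ∀ N : ℕ, N0 ≤ N →
      ∑ n ∈ Finset.range N, ‖H (Int.fract (u * n + v)) - t n‖ ≤ ε * N := by
  obtain ⟨C, hC⟩ := isCompact_Icc.exists_bound_of_continuousOn hH
  have hC0 : 0 ≤ C := (norm_nonneg _).trans (hC 0 (by simp))
  obtain ⟨δ, hδ, hδ2, N0, hN0⟩ := rare hu v (ε := ε / (2 * (C + 1))) (by positivity)
  set ρ : ℝ → ℝ := fun y => max 0 (min 1 (min (y / δ) ((1 - y) / δ))) with hρ
  have hρc : Continuous ρ := by
    simp only [hρ]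
    fun_prop
  have hρ0 : ρ 0 = 0 := by
    simp [hρ]
  have hρ1 : ρ 1 = 0 := by
    simp [hρ]
  have hρ01 : ∀ y, 0 ≤ ρ y ∧ ρ y ≤ 1 := by
    intro y
    simp only [hρ]
    exact ⟨le_max_left _ _, max_le (by norm_num) (min_le_left _ _)⟩
  have hρe : ∀ y, δ ≤ y → y ≤ 1 - δ → ρ y = 1 := by
    intro y h1 h2
    simp only [hρ]
    have a1 : 1 ≤ y / δ := by rw [le_div_iff₀ hδ]; linarith
    have a2 : 1 ≤ (1 - y) / δ := by rw [le_div_iff₀ hδ]; linarith
    rw [min_eq_left (le_min a1 a2), max_eq_right (by norm_num)]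
  set F : ℝ → ℂ := fun y => H y * ρ y with hF
  have hFc : ContinuousOn F (Set.Icc 0 1) :=
    hH.mul ((Complex.continuous_ofReal.comp hρc).continuousOn)
  have hF01 : F 0 = F 1 := by simp [hF, hρ0, hρ1]
  set G : C(AddCircle (1 : ℝ), ℂ) := ⟨AddCircle.liftIco 1 0 F,
    AddCircle.liftIco_zero_continuous hF01 hFc⟩ with hG
  have hGe : ∀ x : ℝ, G (x : AddCircle (1 : ℝ)) = F (Int.fract x) := by
    intro x
    have e : (x : AddCircle (1 : ℝ)) = ((Int.fract x : ℝ) : AddCircle (1 : ℝ)) := by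
      have e1 : x = Int.fract x + ⌊x⌋ • (1 : ℝ) := by
        rw [zsmul_eq_mul, mul_one]; exact (Int.fract_add_floor x).symm
      conv_lhs => rw [e1]
      rw [AddCircle.coe_add, AddCircle.coe_zsmul, AddCircle.coe_period, smul_zero, add_zero]
    rw [e, hG]
    simp only [ContinuousMap.coe_mk]
    exact AddCircle.liftIco_zero_coe_apply ⟨Int.fract_nonneg x, Int.fract_lt_one x⟩
  have hmem : G ∈ (Submodule.span ℂ (Set.range (fourier (T := (1 : ℝ))))).topologicalClosure := by
    rw [span_fourier_closure_eq_top]; trivial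
  rw [← SetLike.mem_coe, Submodule.topologicalClosure_coe, Metric.mem_closure_iff] at hmem
  obtain ⟨P, hP, hd⟩ := hmem (ε / 2) (by positivity)
  refine ⟨fun n => P ((u * n + v : ℝ) : AddCircle (1 : ℝ)), eval_TG hP, N0, fun N hN => ?_⟩
  have hterm : ∀ n ∈ Finset.range N, ‖H (Int.fract (u * n + v)) -
      P ((u * n + v : ℝ) : AddCircle (1 : ℝ))‖ ≤
      (if Int.fract (u * n + v) < δ ∨ 1 - δ < Int.fract (u * n + v) then C else 0) + ε / 2 := by
    intro n _
    have h1 : ‖F (Int.fract (u * n + v)) - P ((u * n + v : ℝ) : AddCircle (1 : ℝ))‖ ≤ ε / 2 := by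
      rw [← hGe, ← dist_eq_norm]
      exact (ContinuousMap.dist_apply_le_dist _).trans hd.le
    have hy0 := Int.fract_nonneg (u * n + v)
    have hy1 := Int.fract_lt_one (u * n + v)
    have h2 : ‖H (Int.fract (u * n + v)) - F (Int.fract (u * n + v))‖ ≤
        (if Int.fract (u * n + v) < δ ∨ 1 - δ < Int.fract (u * n + v) then C else 0) := by
      set y := Int.fract (u * n + v) with hy
      have e : H y - F y = H y * ((1 - ρ y : ℝ) : ℂ) := by
        simp only [hF]; push_cast; ring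
      rw [e, norm_mul, Complex.norm_real, Real.norm_eq_abs, abs_of_nonneg (by linarith [(hρ01 y).2])]
      split_ifs with hc
      · calc ‖H y‖ * (1 - ρ y) ≤ C * 1 := by
              apply mul_le_mul (hC y ⟨hy0, hy1.le⟩) (by linarith [(hρ01 y).1])
                (by linarith [(hρ01 y).2]) hC0
          _ = C := mul_one C
      · push Not at hc
        rw [hρe y hc.1 hc.2]; simp
    calc _ = ‖(H (Int.fract (u * n + v)) - F (Int.fract (u * n + v))) +
          (F (Int.fract (u * n + v)) - P ((u * n + v : ℝ) : AddCircle (1 : ℝ)))‖ := by congr 1; ring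
      _ ≤ _ := (norm_add_le _ _).trans (add_le_add h2 h1)
  refine (Finset.sum_le_sum hterm).trans ?_
  rw [Finset.sum_add_distrib, ← Finset.sum_filter, Finset.sum_const, Finset.sum_const,
    Finset.card_range, nsmul_eq_mul, nsmul_eq_mul]
  have h3 := hN0 N hN
  have h4 : ε / (2 * (C + 1)) * N * C ≤ ε / 2 * N := by
    have : ε / (2 * (C + 1)) * N * C = ε / 2 * N * (C / (C + 1)) := by field_simp
    rw [this]
    have h5 : C / (C + 1) ≤ 1 := by rw [div_le_one (by linarith)]; linarith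
    have h6 : 0 ≤ ε / 2 * N := by positivity
    nlinarith
  have h5 := mul_le_mul_of_nonneg_right h3 hC0
  linarith

/-- **means of characters along Beatty sequences** -/
theorem floor_mean {α : ℝ} (hα : Irrational α) (β θ : ℝ) :
    ∃ L : ℂ, HasMean (fun n : ℕ => Complex.exp (((2 * Real.pi * ((⌊α * n + β⌋ : ℤ) * θ) : ℝ) : ℂ) *
      Complex.I)) L ∧ ((∀ k l : ℤ, (θ + k) * α ≠ l) → L = 0) := by
  set H : ℝ → ℂ := fun y => Complex.exp (((2 * Real.pi * (-(θ * y)) : ℝ) : ℂ) * Complex.I) with hH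
  have hHc : ContinuousOn H (Set.Icc 0 1) := by
    apply Continuous.continuousOn
    simp only [hH]
    fun_prop
  set c : ℂ := Complex.exp (((2 * Real.pi * (θ * β) : ℝ) : ℂ) * Complex.I) with hc
  have hcn : ‖c‖ = 1 := Complex.norm_exp_ofReal_mul_I _
  set g : ℕ → ℂ := fun n : ℕ => Complex.exp (((2 * Real.pi * ((⌊α * n + β⌋ : ℤ) * θ) : ℝ) : ℂ) *
      Complex.I) with hg
  have hge : ∀ n : ℕ, g n = c * chr (θ * α) n * H (Int.fract (α * n + β)) := by
    intro n
    simp only [hg, hc, hH, chr]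
    rw [← Complex.exp_add, ← Complex.exp_add]
    congr 1
    have := Int.self_sub_floor (α * n + β)
    rw [← this]
    push_cast
    ring
  have key : ∀ η : ℝ, 0 < η → ∃ t : ℕ → ℂ, t ∈ TG (AddSubgroup.zmultiples α) ∧ ∃ N0, ∀ N, N0 ≤ N →
      ‖cm g N - cm (c • (chr (θ * α) * t)) N‖ ≤ η := by
    intro η hη
    obtain ⟨t, ht, N0, hN0⟩ := fract_approx hα β hHc hη
    refine ⟨t, ht, max N0 1, fun N hN => ?_⟩
    have hNpos : (0 : ℝ) < N := by exact_mod_cast (by omega : 0 < N)
    unfold cm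
    rw [← sub_div, ← Finset.sum_sub_distrib, norm_div, Complex.norm_natCast, div_le_iff₀ hNpos]
    refine (norm_sum_le _ _).trans (le_trans (Finset.sum_le_sum fun n _ => ?_) (hN0 N (by omega)))
    rw [hge n, Pi.smul_apply, Pi.mul_apply, smul_eq_mul]
    have e : c * chr (θ * α) n * H (Int.fract (α * n + β)) - c * (chr (θ * α) n * t n) =
        c * chr (θ * α) n * (H (Int.fract (α * n + β)) - t n) := by ring
    rw [e, norm_mul, norm_mul, hcn, norm_chr, one_mul, one_mul]
  have hT : ∀ t ∈ TG (AddSubgroup.zmultiples α), c • (chr (θ * α) * t) ∈ Trig := by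
    intro t ht
    exact Trig.smul_mem _ (Trig_mul (chr_mem _) (TG_le_Trig _ ht))
  obtain ⟨L, hL⟩ := hasMean_of_approx (a := g) (fun η hη => by
    obtain ⟨t, ht, h⟩ := key η hη
    exact ⟨_, Trig_mean (hT t ht), h⟩)
  refine ⟨L, hL, fun hres => ?_⟩
  have hz : ∀ t ∈ TG (AddSubgroup.zmultiples α), HasMean (chr (θ * α) * t) 0 := by
    intro t ht
    unfold TG at ht
    induction ht using Submodule.span_induction with
    | mem x hx =>
      obtain ⟨w, hw, rfl⟩ := hx
      rw [SetLike.mem_coe, AddSubgroup.mem_zmultiples_iff] at hw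
      obtain ⟨k, rfl⟩ := hw
      rw [chr_mul]
      apply chr_mean_non
      rintro ⟨l, hl⟩
      apply hres k l
      rw [← hl, zsmul_eq_mul]; ring
    | zero => rw [mul_zero]; exact hasMean_zero
    | add x y _ _ hx hy =>
      rw [mul_add]
      simpa using hx.add hy
    | smul a x _ hx =>
      rw [mul_smul_comm]
      simpa using hx.smul a
  by_contra hne
  have hpos : 0 < ‖L‖ := norm_pos_iff.mpr hne
  obtain ⟨t, ht, h⟩ := key (‖L‖ / 2) (by positivity)
  have h1 := mean_close hL ((hz t ht).smul c) h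
  rw [mul_zero, sub_zero] at h1
  linarith

end Pool.Agent.Q209.GC
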