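import Mathlib
import Pool.Agent.Q209.GC.Weyl
import Pool.Agent.Q209.GC.Law2

/-!
# Beatty sequences as families of finite sets
-/

set_option autoImplicit false

open Filter Topology MeasureTheory
open Pool.Agent.H383.AP Pool.Agent.H425R3.JL

namespace Pool.Agent.Q209.GC

/-- the terms of the Beatty sequence, minus one -/
noncomputable def bt (α β : ℝ) (n : ℕ) : ℕ := ⌊α * (n + 1) + β⌋₊ - 1

/-- the finite sets of the first terms -/
noncomputable def BS (α β : ℝ) (j : ℕ) : Finset ℕ := (Finset.range (j + 1)).image (bt α β)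

/-- initial segments -/
def RS' (j : ℕ) : Finset ℕ := Finset.range (j + 1)

variable {α β : ℝ}

lemma one_le_floor (hα : 1 < α) (hβ : 0 ≤ β) (n : ℕ) : 1 ≤ ⌊α * (n + 1) + β⌋₊ := by
  rw [Nat.one_le_floor_iff]
  have : (0 : ℝ) ≤ n := Nat.cast_nonneg n
  nlinarith

lemma bt_succ (hα : 1 < α) (hβ : 0 ≤ β) (n : ℕ) : bt α β n + 1 = ⌊α * (n + 1) + β⌋₊ := by
  have := one_le_floor hα hβ n
  unfold bt
  omega

lemma bt_strict (hα : 1 < α) (hβ : 0 ≤ β) : StrictMono (bt α β) := by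
  apply strictMono_nat_of_lt_succ
  intro n
  have h1 := bt_succ hα hβ n
  have h2 := bt_succ hα hβ (n + 1)
  have h3 : ⌊α * (n + 1) + β⌋₊ + 1 ≤ ⌊α * ((n + 1 : ℕ) + 1) + β⌋₊ := by
    have hn : (0 : ℝ) ≤ n := Nat.cast_nonneg n
    rw [← Nat.floor_add_one (by nlinarith)]
    apply Nat.floor_le_floor
    push_cast
    linarith
  omega

lemma BS_ne (j : ℕ) : (BS α β j).Nonempty := ⟨bt α β 0, by
  unfold BS; exact Finset.mem_image_of_mem _ (by simp)⟩

lemma BS_card (hα : 1 < α) (hβ : 0 ≤ β) (j : ℕ) : (BS α β j).card = j + 1 := by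
  unfold BS
  rw [Finset.card_image_of_injective _ (bt_strict hα hβ).injective, Finset.card_range]

lemma BS_sum {M : Type*} [AddCommMonoid M] (hα : 1 < α) (hβ : 0 ≤ β) (j : ℕ) (g : ℕ → M) :
    ∑ x ∈ BS α β j, g x = ∑ n ∈ Finset.range (j + 1), g (bt α β n) := by
  unfold BS
  rw [Finset.sum_image (fun a _ b _ h => (bt_strict hα hβ).injective h)]

lemma BS_sub (hα : 1 < α) (hβ : 0 ≤ β) (j : ℕ) : BS α β j ⊆ Finset.range (bt α β j + 1) := by
  intro x hx
  unfold BS at hx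
  rw [Finset.mem_image] at hx
  obtain ⟨n, hn, rfl⟩ := hx
  rw [Finset.mem_range] at hn ⊢
  have := (bt_strict hα hβ).monotone (by omega : n ≤ j)
  omega

lemma bt_le (hα : 1 < α) (hβ : 0 ≤ β) (j : ℕ) : ((bt α β j + 1 : ℕ) : ℝ) ≤ (α + β) * (j + 1) := by
  rw [bt_succ hα hβ]
  have hn : (0 : ℝ) ≤ j := Nat.cast_nonneg j
  refine (Nat.floor_le (by nlinarith)).trans ?_
  nlinarith

lemma le_bt (hα : 1 < α) (hβ : 0 ≤ β) (j : ℕ) : j ≤ bt α β j := (bt_strict hα hβ).id_le j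

lemma fav_BS (hα : 1 < α) (hβ : 0 ≤ β) (j : ℕ) {g : ℕ → ℝ} (hg : ∀ n, 0 ≤ g n) :
    fav (BS α β j) g ≤ (α + β) * fav (Finset.range (bt α β j + 1)) g := by
  unfold fav
  rw [BS_card hα hβ, Finset.card_range]
  have h1 : ∑ n ∈ BS α β j, g n ≤ ∑ n ∈ Finset.range (bt α β j + 1), g n :=
    Finset.sum_le_sum_of_subset_of_nonneg (BS_sub hα hβ j) (fun n _ _ => hg n)
  have h2 := bt_le hα hβ j
  have h3 : 0 ≤ ∑ n ∈ Finset.range (bt α β j + 1), g n := Finset.sum_nonneg fun n _ => hg n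
  have h4 : (0 : ℝ) < ((bt α β j + 1 : ℕ) : ℝ) := by positivity
  rw [div_le_iff₀ (by positivity), ← mul_div_assoc, div_mul_eq_mul_div, le_div_iff₀ h4]
  push_cast at h2 ⊢
  have h5 : (0 : ℝ) ≤ ((bt α β j : ℕ) : ℝ) + 1 := by positivity
  calc (∑ n ∈ BS α β j, g n) * ((bt α β j : ℝ) + 1)
      ≤ (∑ n ∈ Finset.range (bt α β j + 1), g n) * ((α + β) * (j + 1)) := by
        apply mul_le_mul h1 h2 h5 h3
    _ = _ := by ring

variable {ι : Type*} [Fintype ι]

lemma ApU_BS (hα : 1 < α) (hβ : 0 ≤ β) {U : ℕ → ℕ → ι → ℝ} {e : ℕ → ι → ℝ}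
    (h : ∀ η : ℝ, 0 < η → ∃ M0 : ℕ, ∀ M : ℕ, M0 ≤ M → ∃ j0 : ℕ, ∀ j : ℕ, j0 ≤ j →
      fav (Finset.range (j + 1)) (fun n => q (e n - U M n)) ≤ η) : ApU U e (BS α β) := by
  intro η hη
  obtain ⟨M0, hM0⟩ := h (η / (α + β)) (by positivity)
  refine ⟨M0, fun M hM => ?_⟩
  obtain ⟨j0, hj0⟩ := hM0 M hM
  refine ⟨j0, fun j hj => ?_⟩
  have h1 := hj0 (bt α β j) (hj.trans (le_bt hα hβ j))
  refine (fav_BS hα hβ j fun n => q_nonneg _).trans ?_
  rw [le_div_iff₀ (by positivity)] at h1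
  linarith

lemma cav_BS_chr (hα : 1 < α) (hβ : 0 ≤ β) (θ : ℝ) (j : ℕ) : cav (BS α β j) (chr θ) =
    Complex.exp (((2 * Real.pi * (-θ) : ℝ) : ℂ) * Complex.I) *
      cm (fun n : ℕ => Complex.exp (((2 * Real.pi * ((⌊α * n + (α + β)⌋ : ℤ) * θ) : ℝ) : ℂ) *
        Complex.I)) (j + 1) := by
  unfold cav cm
  rw [BS_sum hα hβ, BS_card hα hβ, mul_div_assoc', Finset.mul_sum]
  congr 1
  refine Finset.sum_congr rfl fun n _ => ?_
  unfold chr
  rw [← Complex.exp_add]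
  have hn : (0 : ℝ) ≤ n := Nat.cast_nonneg n
  have h1 : ((bt α β n : ℕ) : ℝ) = ((⌊α * n + (α + β)⌋ : ℤ) : ℝ) - 1 := by
    have h2 := bt_succ hα hβ n
    have h3 : ((⌊α * (n + 1) + β⌋₊ : ℕ) : ℝ) = ((⌊α * n + (α + β)⌋ : ℤ) : ℝ) := by
      rw [natCast_floor_eq_intCast_floor (by nlinarith)]
      congr 2
      ring
    rw [← h3, ← h2]
    push_cast
    ring
  rw [h1]
  congr 1
  push_cast
  ring

theorem AvEx_BS (hα : 1 < α) (hirr : Irrational α) (hβ : 0 ≤ β) (Γ : AddSubgroup ℝ) :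
    AvEx Γ (BS α β) := by
  intro θ _
  obtain ⟨L, hL, -⟩ := floor_mean hirr (α + β) θ
  refine ⟨Complex.exp (((2 * Real.pi * (-θ) : ℝ) : ℂ) * Complex.I) * L, ?_⟩
  simp only [cav_BS_chr hα hβ]
  exact (hL.comp (tendsto_add_atTop_nat 1)).const_mul _

theorem AvOK_BS (hα : 1 < α) (hirr : Irrational α) (hβ : 0 ≤ β) {Γ : AddSubgroup ℝ}
    (h1 : (1 : ℝ) ∈ Γ) (hres : ∀ h : ℕ, 0 < h → (h : ℝ) / α ∉ Γ) : AvOK Γ (BS α β) := by
  intro θ hθ
  by_cases hk : ∃ k : ℤ, θ = k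
  · have e1 : mc θ = 1 := by unfold mc; rw [if_pos hk]
    have e2 : ∀ n, chr θ n = 1 := by
      intro n
      obtain ⟨k, rfl⟩ := hk
      simp only [chr]
      rw [Complex.exp_eq_one_iff]
      refine ⟨n * k, ?_⟩
      push_cast; ring
    have e3 : ∀ j, cav (BS α β j) (chr θ) = 1 := by
      intro j
      unfold cav
      simp only [e2, Finset.sum_const, nsmul_eq_mul, mul_one]
      rw [div_self]
      exact_mod_cast (Finset.card_pos.mpr (BS_ne j)).ne'
    simp only [e3, e1]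
    exact tendsto_const_nhds
  · have e1 : mc θ = 0 := by unfold mc; rw [if_neg hk]
    rw [e1]
    obtain ⟨L, hL, hz⟩ := floor_mean hirr (α + β) θ
    have hL0 : L = 0 := by
      apply hz
      intro k l hkl
      have hα0 : α ≠ 0 := by linarith
      have h2 : θ + k = l / α := by rw [eq_div_iff hα0]; exact hkl
      have hmem : (l : ℝ) / α ∈ Γ := by
        rw [← h2]
        refine Γ.add_mem hθ ?_
        have := Γ.zsmul_mem h1 k
        rwa [zsmul_eq_mul, mul_one] at this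
      rcases lt_trichotomy l 0 with hl | hl | hl
      · apply hres l.natAbs (by omega)
        have h3 : ((l.natAbs : ℕ) : ℝ) = -(l : ℝ) := by
          rw [Nat.cast_natAbs, abs_of_neg hl]; push_cast; ring
        rw [h3, neg_div]
        exact Γ.neg_mem hmem
      · subst hl
        apply hk
        refine ⟨-k, ?_⟩
        push_cast at h2 ⊢
        rw [zero_div] at h2
        linarith
      · apply hres l.natAbs (by omega)
        have h3 : ((l.natAbs : ℕ) : ℝ) = (l : ℝ) := by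
          rw [Nat.cast_natAbs, abs_of_pos hl]
        rw [h3]
        exact hmem
    subst hL0
    simp only [cav_BS_chr hα hβ]
    simpa using (hL.comp (tendsto_add_atTop_nat 1)).const_mul
      (Complex.exp (((2 * Real.pi * (-θ) : ℝ) : ℂ) * Complex.I))

end Pool.Agent.Q209.GC
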