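import Mathlib
import Pool.Agent.H425R3.JL.F3

/-!
# Weights that are uncorrelated with the frequencies of the error term
-/

set_option autoImplicit false

open Filter Topology MeasureTheory
open Pool.Agent.H383.AP Pool.Agent.H425R3.JL Pool.Agent.H383.Gen

namespace Pool.Agent.Q209.GC

/-- classes of weights bounded by one, uniformly uncorrelated with the non-integral frequencies of `Γ` -/
def WC (Γ : AddSubgroup ℝ) (W : ℕ → Set (ℕ → ℂ)) : Prop :=
  (∀ N, ∀ w ∈ W N, ∀ n, ‖w n‖ ≤ 1) ∧ ∀ θ ∈ Γ, (¬ ∃ k : ℤ, θ = k) →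
    ∀ ε : ℝ, 0 < ε → ∃ N0 : ℕ, ∀ N : ℕ, N0 ≤ N → ∀ w ∈ W N, ‖∑ n ∈ Finset.Ioc 0 N, w n * chr θ n‖ ≤ ε * N

/-- uniformly uncorrelated with the weights, apart from the mean -/
def UO (W : ℕ → Set (ℕ → ℂ)) (t : ℕ → ℂ) (L : ℂ) : Prop :=
  ∀ ε : ℝ, 0 < ε → ∃ N0 : ℕ, ∀ N : ℕ, N0 ≤ N → ∀ w ∈ W N,
    ‖∑ n ∈ Finset.Ioc 0 N, w n * (t (n-1) - L)‖ ≤ ε * N

lemma UO_chr {Γ : AddSubgroup ℝ} {W : ℕ → Set (ℕ → ℂ)} (hW : WC Γ W) {θ : ℝ} (hθ : θ ∈ Γ) : UO W (chr θ) (mc θ) := by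
  intro ε hε
  rcases em (∃ k : ℤ, θ = k) with hk | hirr
  · refine ⟨0, fun N _ w hw => ?_⟩
    have h1 : mc θ = 1 := by unfold mc; rw [if_pos hk]
    have h2 : ∀ n, chr θ n = 1 := by
      intro n
      obtain ⟨k, rfl⟩ := hk
      simp only [chr]
      rw [Complex.exp_eq_one_iff]
      refine ⟨n * k, ?_⟩
      push_cast; ring
    simp only [h1, h2, sub_self, mul_zero, Finset.sum_const_zero, norm_zero]
    positivity
  · obtain ⟨N0, hN0⟩ := hW.2 θ hθ hirr ε hε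
    refine ⟨N0, fun N hN w hw => ?_⟩
    have h1 : mc θ = 0 := by
      unfold mc
      rw [if_neg hirr]
    have h2 : ∑ n ∈ Finset.Ioc 0 N, w n * (chr θ (n-1) - mc θ) =
        Complex.exp (((2 * Real.pi * (-θ) : ℝ) : ℂ) * Complex.I) * ∑ n ∈ Finset.Ioc 0 N, w n * chr θ n := by
      rw [Finset.mul_sum]
      apply Finset.sum_congr rfl
      intro n hn
      rw [Finset.mem_Ioc] at hn
      rw [h1, sub_zero]
      have : chr θ (n-1) = Complex.exp (((2 * Real.pi * (-θ) : ℝ) : ℂ) * Complex.I) * chr θ n := by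
        unfold chr
        rw [← Complex.exp_add, Nat.cast_sub (by omega : 1 ≤ n)]
        congr 1
        push_cast; ring
      rw [this]; ring
    rw [h2, norm_mul, Complex.norm_exp_ofReal_mul_I, one_mul]
    exact hN0 N hN w hw

lemma UO_TG {Γ : AddSubgroup ℝ} {W : ℕ → Set (ℕ → ℂ)} (hW : WC Γ W) {t : ℕ → ℂ} (ht : t ∈ Pool.Agent.H425R3.JL.TG Γ) :
    ∃ L, (∀ S, AvOK Γ S → Tendsto (fun j => cav (S j) t) atTop (𝓝 L)) ∧ UO W t L := by
  unfold Pool.Agent.H425R3.JL.TG at ht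
  induction ht using Submodule.span_induction with
  | mem x hx =>
    obtain ⟨θ, hθ, rfl⟩ := hx
    exact ⟨mc θ, fun S hS => hS θ hθ, UO_chr hW hθ⟩
  | zero =>
    refine ⟨0, fun S _ => ?_, fun ε hε => ⟨0, fun N _ w _ => ?_⟩⟩
    · have : ∀ j, cav (S j) 0 = 0 := fun j => by simp [cav]
      simp only [this]; exact tendsto_const_nhds
    · simp; positivity
  | add x y _ _ hx hy =>
    obtain ⟨L, hL, hU⟩ := hx
    obtain ⟨L', hL', hU'⟩ := hy
    refine ⟨L + L', fun S h => ?_, fun ε hε => ?_⟩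
    · simp only [cav_add]
      exact (hL S h).add (hL' S h)
    · obtain ⟨N1, h1⟩ := hU (ε/2) (by positivity)
      obtain ⟨N2, h2⟩ := hU' (ε/2) (by positivity)
      refine ⟨max N1 N2, fun N hN w hw => ?_⟩
      have a1 := h1 N (by omega) w hw
      have a2 := h2 N (by omega) w hw
      have e : ∑ n ∈ Finset.Ioc 0 N, w n * ((x + y) (n-1) - (L + L')) =
          ∑ n ∈ Finset.Ioc 0 N, w n * (x (n-1) - L) + ∑ n ∈ Finset.Ioc 0 N, w n * (y (n-1) - L') := by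
        rw [← Finset.sum_add_distrib]
        apply Finset.sum_congr rfl
        intro n _
        rw [Pi.add_apply]; ring
      rw [e]
      refine (norm_add_le _ _).trans ?_
      linarith
  | smul c x _ hx =>
    obtain ⟨L, hL, hU⟩ := hx
    refine ⟨c * L, fun S h => ?_, fun ε hε => ?_⟩
    · simp only [cav_smul]
      exact (hL S h).const_mul c
    · obtain ⟨N1, h1⟩ := hU (ε/(‖c‖ + 1)) (by positivity)
      refine ⟨N1, fun N hN w hw => ?_⟩
      have a1 := h1 N (by omega) w hw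
      have e : ∑ n ∈ Finset.Ioc 0 N, w n * ((c • x) (n-1) - (c * L)) =
          c * ∑ n ∈ Finset.Ioc 0 N, w n * (x (n-1) - L) := by
        rw [Finset.mul_sum]
        apply Finset.sum_congr rfl
        intro n _
        rw [Pi.smul_apply, smul_eq_mul]; ring
      rw [e, norm_mul]
      calc ‖c‖ * ‖∑ n ∈ Finset.Ioc 0 N, w n * (x (n-1) - L)‖ ≤ ‖c‖ * (ε/(‖c‖ + 1) * N) := by gcongr
        _ = ε * N * (‖c‖ / (‖c‖ + 1)) := by ring
        _ ≤ ε * N * 1 := by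
            apply mul_le_mul_of_nonneg_left _ (by positivity)
            rw [div_le_one (by positivity)]; linarith
        _ = _ := mul_one _

lemma fav_Ioc {N : ℕ} (hN : 1 ≤ N) (g : ℕ → ℝ) :
    fav (RS (N-1)) g = (∑ n ∈ Finset.Ioc 0 N, g (n-1)) / N := by
  unfold fav RS
  rw [Finset.card_range, show N - 1 + 1 = N by omega]
  congr 1
  have := sum_Icc_range N (fun n => g (n-1))
  simp only [Nat.add_sub_cancel] at this
  rw [← this]
  rfl

variable {ι : Type*} [Fintype ι]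

/-- weights and functions of the sequence -/
theorem UO_f {Γ : AddSubgroup ℝ} {W : ℕ → Set (ℕ → ℂ)} (hW : WC Γ W) {U : ℕ → ℕ → ι → ℝ}
    (hU : ∀ M i, (fun n => ((U M n i : ℝ) : ℂ)) ∈ Pool.Agent.H425R3.JL.TG Γ)
    {e : ℕ → ι → ℝ} (h : ApU U e RS)
    {f : (ι → ℝ) → ℝ} (hf : Continuous f) (hC : ∃ C : ℝ, ∀ x, |f x| ≤ C * (1 + q x)) {I : ℝ}
    (hI : Tendsto (fun j => fav (RS j) (fun n => f (e n))) atTop (𝓝 I)) {ε : ℝ} (hε : 0 < ε) :
    ∃ N0 : ℕ, ∀ N : ℕ, N0 ≤ N → ∀ w ∈ W N,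
      ‖∑ n ∈ Finset.Ioc 0 N, w n * (((f (e (n-1)) - I : ℝ)) : ℂ)‖ ≤ ε * N := by
  obtain ⟨t, ht, j0, hj0⟩ := approx hU RS_ne h hf hC (η := ε/4) (by positivity)
  obtain ⟨L, hL, hUO⟩ := UO_TG hW ht
  have hL' := hL RS (AvOK_RS Γ)
  have hLI : ‖L - (I:ℂ)‖ ≤ ε/4 := by
    have h1 : Tendsto (fun j => ‖cav (RS j) t - cav (RS j) (fun n => ((f (e n) : ℝ) : ℂ))‖) atTop (𝓝 ‖L - (I:ℂ)‖) := by
      apply Tendsto.norm
      apply hL'.sub
      simp only [cav_ofReal]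
      exact (Complex.continuous_ofReal.tendsto I).comp hI
    apply le_of_tendsto h1
    filter_upwards [eventually_ge_atTop j0] with j hj
    rw [norm_sub_rev]
    exact (norm_cav_sub_le _ _ _).trans (hj0 j hj)
  obtain ⟨N1, hN1⟩ := hUO (ε/4) (by positivity)
  refine ⟨max (max N1 (j0+1)) 1, fun N hN w hw => ?_⟩
  have hNpos : (0:ℝ) < N := by exact_mod_cast (by omega : 0 < N)
  have a1 := hN1 N (by omega) w hw
  have a2 := hj0 (N-1) (by omega)
  rw [fav_Ioc (by omega), div_le_iff₀ hNpos] at a2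
  have hw1 : ∀ n, ‖w n‖ ≤ 1 := hW.1 N w hw
  have e1 : ∑ n ∈ Finset.Ioc 0 N, w n * (((f (e (n-1)) - I : ℝ)) : ℂ) =
      ∑ n ∈ Finset.Ioc 0 N, w n * (((f (e (n-1)) : ℝ) : ℂ) - t (n-1)) +
      ∑ n ∈ Finset.Ioc 0 N, w n * (t (n-1) - L) + ∑ n ∈ Finset.Ioc 0 N, w n * (L - I) := by
    rw [← Finset.sum_add_distrib, ← Finset.sum_add_distrib]
    apply Finset.sum_congr rfl
    intro n _
    push_cast; ring
  rw [e1]
  have b1 : ‖∑ n ∈ Finset.Ioc 0 N, w n * (((f (e (n-1)) : ℝ) : ℂ) - t (n-1))‖ ≤ ε/4 * N := by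
    refine (norm_sum_le _ _).trans (le_trans (Finset.sum_le_sum (fun n _ => ?_)) a2)
    rw [norm_mul]
    calc _ ≤ 1 * ‖((f (e (n-1)) : ℝ) : ℂ) - t (n-1)‖ := by gcongr; exact hw1 n
      _ = _ := one_mul _
  have b3 : ‖∑ n ∈ Finset.Ioc 0 N, w n * (L - I)‖ ≤ ε/4 * N := by
    refine (norm_sum_le _ _).trans ?_
    calc ∑ n ∈ Finset.Ioc 0 N, ‖w n * (L - I)‖ ≤ ∑ n ∈ Finset.Ioc 0 N, ε/4 := by
          apply Finset.sum_le_sum
          intro n _
          rw [norm_mul]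
          calc _ ≤ 1 * (ε/4) := by gcongr; exact hw1 n
            _ = _ := one_mul _
      _ = ε/4 * N := by rw [Finset.sum_const, Nat.card_Ioc, Nat.sub_zero, nsmul_eq_mul]; ring
  refine (norm_add_le _ _).trans ?_
  refine (add_le_add (norm_add_le _ _) le_rfl).trans ?_
  linarith [mul_pos hε hNpos]

open Classical in
/-- weights and sets -/
theorem UO_A {Γ : AddSubgroup ℝ} {W : ℕ → Set (ℕ → ℂ)} (hW : WC Γ W) {U : ℕ → ℕ → ι → ℝ}
    (hU : ∀ M i, (fun n => ((U M n i : ℝ) : ℂ)) ∈ Pool.Agent.H425R3.JL.TG Γ)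
    {e : ℕ → ι → ℝ} (h : ApU U e RS) {μ : ProbabilityMeasure (ι → ℝ)}
    (hμ : ∀ f : (ι → ℝ) → ℝ, Continuous f → (∃ C, ∀ x, |f x| ≤ C * (1 + q x)) →
      Tendsto (fun j => fav (RS j) (fun n => f (e n))) atTop (𝓝 (∫ x, f x ∂(μ : Measure (ι → ℝ)))))
    {A : Set (ι → ℝ)} (hA : (μ : Measure (ι → ℝ)) (frontier A) = 0) {ε : ℝ} (hε : 0 < ε) :
    ∃ N0 : ℕ, ∀ N : ℕ, N0 ≤ N → ∀ w ∈ W N,
      ‖∑ n ∈ Finset.Ioc 0 N, w n * ((((if e (n-1) ∈ A then 1 else 0) - (μ : Measure (ι → ℝ)).real A : ℝ)) : ℂ)‖ ≤ ε * N := by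
  have hcl : (μ : Measure (ι → ℝ)) (closure A) = (μ : Measure (ι → ℝ)) A := by
    apply le_antisymm _ (measure_mono subset_closure)
    rw [closure_eq_self_union_frontier]
    refine (measure_union_le _ _).trans ?_
    rw [hA, add_zero]
  -- continuous majorants
  have hAc : IsClosed (closure A) := isClosed_closure
  have h1 := HasOuterApproxClosed.tendsto_lintegral_apprSeq hAc (μ : Measure (ι → ℝ))
  have h2 : Tendsto (fun m : ℕ => ∫ x, ((hAc.apprSeq m x : NNReal) : ℝ) ∂(μ : Measure (ι → ℝ))) atTop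
      (𝓝 ((μ : Measure (ι → ℝ)).real A)) := by
    have h3 := (ENNReal.tendsto_toReal (measure_ne_top _ _)).comp h1
    rw [hcl] at h3
    refine h3.congr (fun m => ?_)
    simp only [Function.comp_apply]
    rw [integral_eq_lintegral_of_nonneg_ae (Eventually.of_forall (fun x => NNReal.coe_nonneg _))
      (by fun_prop)]
    congr 1
    apply lintegral_congr
    intro x
    rw [ENNReal.ofReal_coe_nnreal]
  rw [Metric.tendsto_atTop] at h2
  obtain ⟨m, hm⟩ := h2 (ε/4) (by positivity)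
  have hm' := hm m le_rfl
  rw [Real.dist_eq] at hm'
  set f : (ι → ℝ) → ℝ := fun x => ((hAc.apprSeq m x : NNReal) : ℝ) with hf
  have hfc : Continuous f := by
    simp only [hf]
    exact NNReal.continuous_coe.comp (hAc.apprSeq m).continuous
  have hf0 : ∀ x, 0 ≤ f x := fun x => NNReal.coe_nonneg _
  have hf1 : ∀ x, f x ≤ 1 := fun x => by
    simp only [hf]
    exact_mod_cast HasOuterApproxClosed.apprSeq_apply_le_one hAc m x
  have hfA : ∀ x, x ∈ A → f x = 1 := fun x hx => by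
    simp only [hf]
    exact_mod_cast HasOuterApproxClosed.apprSeq_apply_eq_one hAc m (subset_closure hx)
  have hfC : ∃ C : ℝ, ∀ x, |f x| ≤ C * (1 + q x) := ⟨1, fun x => by
    rw [abs_of_nonneg (hf0 x)]
    have := q_nonneg x
    linarith [hf1 x]⟩
  have hI := hμ f hfc hfC
  obtain ⟨N1, hN1⟩ := UO_f hW hU h hfc hfC hI (ε := ε/4) (by positivity)
  -- the averages of the indicator
  have hport := portm RS_ne hμ hA
  have hdiff := hI.sub hport
  have hlt : ∫ x, f x ∂(μ : Measure (ι → ℝ)) - (μ : Measure (ι → ℝ)).real A < ε/4 := (abs_lt.mp hm').2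
  obtain ⟨j1, hj1⟩ := (hdiff.eventually_lt_const hlt).exists_forall_of_atTop
  refine ⟨max (max N1 (j1+1)) 1, fun N hN w hw => ?_⟩
  have hNpos : (0:ℝ) < N := by exact_mod_cast (by omega : 0 < N)
  have a1 := hN1 N (by omega) w hw
  have a2 := hj1 (N-1) (by omega)
  have hw1 : ∀ n, ‖w n‖ ≤ 1 := hW.1 N w hw
  have e2 : (((RS (N-1)).filter (fun n => e n ∈ A)).card : ℝ) / (RS (N-1)).card =
      fav (RS (N-1)) (fun n => if e n ∈ A then (1:ℝ) else 0) := by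
    unfold fav
    rw [← Finset.sum_filter, Finset.sum_const, nsmul_eq_mul, mul_one]
  rw [e2, fav_Ioc (by omega), fav_Ioc (by omega), ← sub_div, ← Finset.sum_sub_distrib, div_lt_iff₀ hNpos] at a2
  have e1 : ∑ n ∈ Finset.Ioc 0 N, w n * ((((if e (n-1) ∈ A then 1 else 0) - (μ : Measure (ι → ℝ)).real A : ℝ)) : ℂ) =
      ∑ n ∈ Finset.Ioc 0 N, w n * (((f (e (n-1)) - ∫ x, f x ∂(μ : Measure (ι → ℝ)) : ℝ)) : ℂ) -
      ∑ n ∈ Finset.Ioc 0 N, w n * (((f (e (n-1)) - (if e (n-1) ∈ A then 1 else 0) : ℝ)) : ℂ) +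
      ∑ n ∈ Finset.Ioc 0 N, w n * ((∫ x, f x ∂(μ : Measure (ι → ℝ)) - (μ : Measure (ι → ℝ)).real A : ℝ) : ℂ) := by
    rw [← Finset.sum_sub_distrib, ← Finset.sum_add_distrib]
    apply Finset.sum_congr rfl
    intro n _
    push_cast; ring
  rw [e1]
  have b2 : ‖∑ n ∈ Finset.Ioc 0 N, w n * (((f (e (n-1)) - (if e (n-1) ∈ A then 1 else 0) : ℝ)) : ℂ)‖ ≤ ε/4 * N := by
    refine (norm_sum_le _ _).trans (le_trans (Finset.sum_le_sum (fun n _ => ?_)) a2.le)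
    rw [norm_mul, Complex.norm_real, Real.norm_eq_abs]
    have : 0 ≤ f (e (n-1)) - (if e (n-1) ∈ A then (1:ℝ) else 0) := by
      split_ifs with hx
      · rw [hfA _ hx]; norm_num
      · linarith [hf0 (e (n-1))]
    rw [abs_of_nonneg this]
    calc _ ≤ 1 * (f (e (n-1)) - (if e (n-1) ∈ A then (1:ℝ) else 0)) := by gcongr; exact hw1 n
      _ = _ := one_mul _
  have b3 : ‖∑ n ∈ Finset.Ioc 0 N, w n * ((∫ x, f x ∂(μ : Measure (ι → ℝ)) - (μ : Measure (ι → ℝ)).real A : ℝ) : ℂ)‖ ≤ ε/4 * N := by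
    refine (norm_sum_le _ _).trans ?_
    calc ∑ n ∈ Finset.Ioc 0 N, ‖w n * ((∫ x, f x ∂(μ : Measure (ι → ℝ)) - (μ : Measure (ι → ℝ)).real A : ℝ) : ℂ)‖ ≤ ∑ n ∈ Finset.Ioc 0 N, ε/4 := by
          apply Finset.sum_le_sum
          intro n _
          rw [norm_mul, Complex.norm_real, Real.norm_eq_abs]
          calc _ ≤ 1 * (ε/4) := by
                apply mul_le_mul (hw1 n) hm'.le (abs_nonneg _) zero_le_one
            _ = _ := one_mul _
      _ = ε/4 * N := by rw [Finset.sum_const, Nat.card_Ioc, Nat.sub_zero, nsmul_eq_mul]; ring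
  refine (norm_add_le _ _).trans ?_
  refine (add_le_add (norm_sub_le _ _) le_rfl).trans ?_
  linarith [mul_pos hε hNpos]


end Pool.Agent.Q209.GC
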