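import Mathlib
import Pool.Agent.Q209.GC.Law2
import Pool.Agent.Q209.GC.Beatty
import Pool.Agent.Q209.GC.Orth

/-!
# Weights and Beatty sequences: general error terms
-/

set_option autoImplicit false

open Filter Topology MeasureTheory
open Pool.Agent.H383.AP Pool.Agent.H425R3.JL Pool.Agent.H383.Gen

namespace Pool.Agent.Q209.GC

/-- the group of the frequencies -/
def FG {k : ℕ} (af : ℕ → ℝ) (κ : ℕ → ℕ) (a : Fin k → ℕ) : AddSubgroup ℝ :=
  AddSubgroup.closure ({1} ∪ {θ | ∃ i : Fin k, ∃ m : ℕ, 1 ≤ m ∧ af m ≠ 0 ∧ θ = √(κ (a i) : ℝ) * √(m : ℝ)})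

lemma one_mem_FG {k : ℕ} (af : ℕ → ℝ) (κ : ℕ → ℕ) (a : Fin k → ℕ) : (1 : ℝ) ∈ FG af κ a :=
  AddSubgroup.subset_closure (Or.inl rfl)

lemma UU_TG' {k : ℕ} {af : ℕ → ℝ} {φ : ℝ} {α X : Fin k → ℝ} {Γ : AddSubgroup ℝ}
    (hΓ : ∀ i, ∀ m : ℕ, 1 ≤ m → af m ≠ 0 → α i * √(m:ℝ) ∈ Γ) (M : ℕ) (i : Fin k) :
    (fun n => ((UU (fun _ : Fin k => af) (fun _ => φ) α X M n i : ℝ) : ℂ)) ∈
      Pool.Agent.H425R3.JL.TG Γ := by
  unfold UU
  rw [U_trig]
  apply Submodule.sum_mem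
  intro m hm
  rcases eq_or_ne (af m) 0 with h0 | h0
  · have h1 : ac af φ (X i) m = 0 := by unfold ac; rw [h0]; simp
    rw [h1]
    simp only [zero_div, map_zero, zero_smul, add_zero]
    exact (Pool.Agent.H425R3.JL.TG Γ).zero_mem
  · have h2 : α i * √(m:ℝ) ∈ Γ := hΓ i m (by rw [Finset.mem_Icc] at hm; exact hm.1) h0
    exact (Pool.Agent.H425R3.JL.TG Γ).add_mem
      ((Pool.Agent.H425R3.JL.TG Γ).smul_mem _ (TG_chr h2))
      ((Pool.Agent.H425R3.JL.TG Γ).smul_mem _ (TG_chr (Γ.neg_mem h2)))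

/-- two limit laws of the same averages agree -/
lemma law_unique {k : ℕ} {S : ℕ → Finset ℕ} {e : ℕ → Fin k → ℝ} {μ ν : ProbabilityMeasure (Fin k → ℝ)}
    (h1 : ∀ f : (Fin k → ℝ) → ℝ, Continuous f → (∃ C, ∀ x, |f x| ≤ C * (1 + q x)) →
      Tendsto (fun j => fav (S j) (fun n => f (e n))) atTop (𝓝 (∫ x, f x ∂(μ : Measure (Fin k → ℝ)))))
    (h2 : ∀ f : (Fin k → ℝ) → ℝ, Continuous f → (∃ C, ∀ x, |f x| ≤ C * (1 + q x)) →
      Tendsto (fun j => fav (S j) (fun n => f (e n))) atTop (𝓝 (∫ x, f x ∂(ν : Measure (Fin k → ℝ))))) :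
    μ = ν := by
  apply Subtype.ext
  haveI : IsProbabilityMeasure (μ : Measure (Fin k → ℝ)) := μ.2
  haveI : IsProbabilityMeasure (ν : Measure (Fin k → ℝ)) := ν.2
  change (μ : Measure (Fin k → ℝ)) = (ν : Measure (Fin k → ℝ))
  apply ext_of_forall_integral_eq_of_IsFiniteMeasure
  intro f
  have hb : ∀ x, |f x| ≤ ‖f‖ := fun x => f.norm_coe_le_norm x
  have hb' : ∃ C, ∀ x, |f x| ≤ C * (1 + q x) := ⟨‖f‖, fun x => by
    have h1 := hb x
    have h2 : 0 ≤ ‖f‖ := norm_nonneg _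
    nlinarith [q_nonneg x]⟩
  exact tendsto_nhds_unique (h1 f f.continuous hb') (h2 f f.continuous hb')

open Classical in
/-- weights and Beatty sequences for a general error term -/
theorem gen {Ex : ℝ → ℝ} {af : ℕ → ℝ} {φ : ℝ} {κ : ℕ → ℕ} {X : ℕ → ℝ → ℝ} (hD : Data Ex af φ κ X)
    {k : ℕ} (a : Fin k → ℕ) (b c : Fin k → ℝ) (ha : ∀ i, 0 < a i)
    (hP : ∀ i, ∀ n : ℕ, 1 ≤ n → 0 < (a i:ℝ) * (n:ℝ)^2 + b i * n + c i) :
    ∃ μ : ProbabilityMeasure (Fin k → ℝ),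
      Integrable (fun x : Fin k → ℝ => ∑ i, x i ^ 2) (μ : Measure (Fin k → ℝ)) ∧
      (∀ i, ∃ g : ℂ → ℂ, Differentiable ℂ g ∧ (∀ x : ℝ, 0 ≤ (g x).re ∧ (g x).im = 0) ∧
        (μ : Measure (Fin k → ℝ)).map (fun x => x i) = volume.withDensity (fun x : ℝ => ENNReal.ofReal (g x).re) ∧
        ∀ u v : ℝ, u < v → 0 < (μ : Measure (Fin k → ℝ)) {x | u < x i ∧ x i < v}) ∧
      (∀ f : (Fin k → ℝ) → ℝ, Continuous f → (∃ C : ℝ, ∀ x, |f x| ≤ C * (1 + ∑ i, x i ^ 2)) →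
          Tendsto (fun N : ℕ => (∑ n ∈ Finset.Icc 1 N,
            f (fun i => Ex ((a i:ℝ) * (n:ℝ)^2 + b i * n + c i))) / N)
            atTop (𝓝 (∫ x, f x ∂(μ : Measure (Fin k → ℝ))))) ∧
      (∀ f : (Fin k → ℝ) → ℝ,
        ((Continuous f ∧ ∃ C : ℝ, ∀ x, |f x| ≤ C * (1 + ∑ i, x i ^ 2)) ∨
          ∃ A : Set (Fin k → ℝ), (μ : Measure (Fin k → ℝ)) (frontier A) = 0 ∧ f = A.indicator 1) →
        ∀ W, WC (FG af κ a) W → ∀ ε : ℝ, 0 < ε → ∃ N₀ : ℕ, ∀ N : ℕ, N₀ ≤ N → ∀ w ∈ W N,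
          ‖∑ n ∈ Finset.Icc 1 N, w n *
            ((f (fun i => Ex ((a i:ℝ) * (n:ℝ)^2 + b i * n + c i)) -
              ∫ x, f x ∂(μ : Measure (Fin k → ℝ)) : ℝ) : ℂ)‖ ≤ ε * N) ∧
      (∀ α β : ℝ, 1 < α → Irrational α → 0 ≤ β → ∃ ν : ProbabilityMeasure (Fin k → ℝ),
        Integrable (fun x : Fin k → ℝ => ∑ i, x i ^ 2) (ν : Measure (Fin k → ℝ)) ∧
        (∀ f : (Fin k → ℝ) → ℝ, Continuous f → (∃ C : ℝ, ∀ x, |f x| ≤ C * (1 + ∑ i, x i ^ 2)) →
          Tendsto (fun M : ℕ => (∑ m ∈ Finset.Icc 1 M,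
            f (fun i => Ex ((a i:ℝ) * ((⌊α * m + β⌋₊ : ℕ) : ℝ)^2 + b i * (⌊α * m + β⌋₊ : ℕ) + c i))) / M)
            atTop (𝓝 (∫ x, f x ∂(ν : Measure (Fin k → ℝ))))) ∧
        ((∀ h : ℕ, 0 < h → (h : ℝ) / α ∉ FG af κ a) → ν = μ)) := by
  -- shifted polynomials
  set b' : Fin k → ℝ := fun i => 2 * a i + b i with hb'
  set c' : Fin k → ℝ := fun i => a i + b i + c i with hc'
  have hsh : ∀ i, ∀ n : ℕ, (a i:ℝ) * (n:ℝ)^2 + b' i * n + c' i = (a i:ℝ) * ((n+1 : ℕ):ℝ)^2 + b i * ((n+1 : ℕ):ℝ) + c i := by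
    intro i n; simp only [hb', hc']; push_cast; ring
  have hP' : ∀ i, ∀ n : ℕ, 0 < (a i:ℝ) * (n:ℝ)^2 + b' i * n + c' i := by
    intro i n; rw [hsh]; exact hP i (n+1) (by omega)
  set e : ℕ → Fin k → ℝ := fun n i => Ex ((a i:ℝ) * (n:ℝ)^2 + b' i * n + c' i) with he
  set G : ℕ → Fin k → ℝ := fun n i => Ex ((a i:ℝ) * (n:ℝ)^2 + b i * n + c i) with hG
  have heG : ∀ n, 1 ≤ n → e (n-1) = G n := by
    intro n hn; funext i; simp only [he, hG]; rw [hsh, show n - 1 + 1 = n by omega]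
  set α : Fin k → ℝ := fun i => √((κ (a i) : ℕ):ℝ) with hα
  have hΓ : ∀ i, ∀ m : ℕ, 1 ≤ m → af m ≠ 0 → α i * √(m:ℝ) ∈ FG af κ a := by
    intro i m h1 h2
    exact AddSubgroup.subset_closure (Or.inr ⟨i, m, h1, h2, rfl⟩)
  have hU : ∀ M i, (fun n => ((UU (fun _ : Fin k => af) (fun _ => φ) α (fun i => X (a i) (b' i)) M n i : ℝ) : ℂ)) ∈
      Pool.Agent.H425R3.JL.TG (FG af κ a) := fun M i => UU_TG' hΓ M i
  have h1 : ApU (UU (fun _ : Fin k => af) (fun _ => φ) α (fun i => X (a i) (b' i))) e RS :=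
    ApU_RS (fun i => hD.ap _ _ _ (ha i) (hP' i))
  obtain ⟨μ, hμ1, hμ2⟩ := law hU RS_ne (AvOK_RS (FG af κ a)) h1
  refine ⟨μ, hμ1, ?_, ?_, ?_, ?_⟩
  · intro i
    obtain ⟨ν, g, g1, g2, g3, g4, g5⟩ := hD.law1 (a i) (b' i) (c' i) (ha i) (hP' i)
    have hm : (μ : Measure (Fin k → ℝ)).map (fun x => x i) = (ν : Measure ℝ) :=
      marg (S := RS) (e := e) i (fun f hf hC => hμ2 f hf hC) g5
    refine ⟨g, g1, g2, by rw [hm, g3], ?_⟩
    intro u v huv
    have h1 := g4 u v huv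
    rw [← hm, Measure.map_apply (measurable_pi_apply i) measurableSet_Ioo] at h1
    exact h1
  · intro f hf hC
    have h3 := hμ2 f hf hC
    rw [← tendsto_add_atTop_iff_nat 1]
    refine h3.congr (fun j => ?_)
    unfold fav RS
    rw [Finset.card_range, sum_Icc_range]
    congr 1
    refine Finset.sum_congr rfl fun n _ => ?_
    have h4 : e n = G (n + 1) := by
      rw [← heG (n + 1) (by omega)]; rfl
    show f (e n) = f (G (n + 1))
    rw [h4]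
  · intro f hf W hW ε hε
    rcases hf with ⟨hfc, hfC⟩ | ⟨A, hA, rfl⟩
    · obtain ⟨N0, hN0⟩ := UO_f hW hU h1 hfc hfC (hμ2 f hfc hfC) hε
      refine ⟨N0, fun N hN w hw => ?_⟩
      refine le_trans (le_of_eq ?_) (hN0 N hN w hw)
      congr 1
      apply Finset.sum_congr rfl
      intro n hn
      rw [Finset.mem_Icc] at hn
      rw [heG n hn.1]
    · obtain ⟨N0, hN0⟩ := UO_A hW hU h1 hμ2 hA hε
      refine ⟨N0, fun N hN w hw => ?_⟩
      refine le_trans (le_of_eq ?_) (hN0 N hN w hw)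
      have hcl : NullMeasurableSet A (μ : Measure (Fin k → ℝ)) := by
        apply NullMeasurableSet.congr (isClosed_closure (s := A)).measurableSet.nullMeasurableSet
        have h5 : (μ : Measure (Fin k → ℝ)) (closure A \ A) = 0 := by
          apply measure_mono_null _ hA
          intro x hx
          rw [closure_eq_self_union_frontier] at hx
          rcases hx with ⟨h | h, h'⟩
          · exact absurd h h'
          · exact h
        exact (ae_eq_set.mpr ⟨h5, by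
          have : A \ closure A = ∅ := Set.sdiff_eq_empty.mpr subset_closure
          rw [this, measure_empty]⟩)
      have hint : ∫ x, A.indicator (1 : (Fin k → ℝ) → ℝ) x ∂(μ : Measure (Fin k → ℝ)) =
          (μ : Measure (Fin k → ℝ)).real A := by
        have h6 : ∫ x, A.indicator (fun _ => (1:ℝ)) x ∂(μ : Measure (Fin k → ℝ)) =
            (μ : Measure (Fin k → ℝ)).real A := by
          rw [integral_indicator₀ hcl]
          simp
        exact h6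
      congr 1
      apply Finset.sum_congr rfl
      intro n hn
      rw [Finset.mem_Icc] at hn
      rw [heG n hn.1, hint, Set.indicator_apply]
      rfl
  · intro α₀ β hα₀ hirr hβ
    have h2 : ApU (UU (fun _ : Fin k => af) (fun _ => φ) α (fun i => X (a i) (b' i))) e (BS α₀ β) :=
      ApU_BS hα₀ hβ h1
    obtain ⟨ν, hν1, hν2⟩ := law2 hU (fun j => BS_ne j) (AvEx_BS hα₀ hirr hβ (FG af κ a)) h2
    refine ⟨ν, hν1, ?_, ?_⟩
    · intro f hf hC
      have h3 := hν2 f hf hC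
      rw [← tendsto_add_atTop_iff_nat 1]
      refine h3.congr (fun j => ?_)
      unfold fav
      rw [BS_sum hα₀ hβ, BS_card hα₀ hβ, sum_Icc_range]
      congr 1
      refine Finset.sum_congr rfl fun n _ => ?_
      have h4 : e (bt α₀ β n) = G (bt α₀ β n + 1) := by
        rw [← heG (bt α₀ β n + 1) (by omega)]; rfl
      rw [h4, bt_succ hα₀ hβ]
      simp only [hG]
      push_cast
      rfl
    · intro hres
      have h3 := AvOK_BS hα₀ hirr hβ (one_mem_FG af κ a) hres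
      apply law_unique (S := BS α₀ β) (e := e) hν2
      intro f hf hC
      exact law_transfer hU RS_ne (AvOK_RS (FG af κ a)) h1 (fun j => BS_ne j) h3 h2 hf hC (hμ2 f hf hC)

end Pool.Agent.Q209.GC
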