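import Mathlib
import Pool.Agent.Q209.GC.Main
import Pool.Agent.H425R3.JL.F3
import Pool.Agent.H383.LinIndep

/-!
# The circle problem: the frequencies
-/

set_option autoImplicit false

open Filter Topology MeasureTheory
open Pool.Agent.H383.AP Pool.Agent.H425R3.JL Pool.Agent.H383.Gen
open Pool.Agent.H383.Gauss Pool.Agent.H383.Circ

namespace Pool.Agent.Q209.GC

/-- sums of two squares -/
def S2 (m : ℕ) : Prop := ∃ u v : ℕ, m = u ^ 2 + v ^ 2

lemma A_ne_iff (m : ℕ) : (Pool.Agent.H383.Gauss.A m).Nonempty ↔ S2 m := by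
  constructor
  · rintro ⟨z, hz⟩
    refine ⟨z.re.natAbs, z.im.natAbs, ?_⟩
    have h1 : z.re ^ 2 + z.im ^ 2 = (m : ℤ) := by
      rw [← Pool.Agent.H383.Gauss.norm_eq]; exact hz
    zify
    rw [sq_abs, sq_abs, h1]
  · rintro ⟨u, v, h⟩
    refine ⟨⟨u, v⟩, ?_⟩
    show (⟨u, v⟩ : GaussianInt).norm = (m : ℤ)
    rw [Pool.Agent.H383.Gauss.norm_eq, h]
    push_cast
    ring

lemma ag_ne_iff {m : ℕ} (hm : 1 ≤ m) : ag m ≠ 0 ↔ S2 m := by
  rw [← A_ne_iff]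
  have h1 : (0:ℝ) < (√(m:ℝ)) ^ (-(3/2):ℝ) := by
    apply Real.rpow_pos_of_pos
    apply Real.sqrt_pos.mpr
    exact_mod_cast hm
  have h2 : ag m ≠ 0 ↔ rA m ≠ 0 := by
    unfold ag
    constructor
    · intro h h3
      apply h
      rw [h3]; simp
    · intro h
      exact mul_ne_zero (div_ne_zero h Real.pi_ne_zero) h1.ne'
  rw [h2]
  unfold rA
  rw [Nat.cast_ne_zero, ← Nat.pos_iff_ne_zero, Set.ncard_pos (Pool.Agent.H383.Gauss.A_finite m)]

/-- the group of the frequencies of the circle problem -/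
def CG {k : ℕ} (a : Fin k → ℕ) : AddSubgroup ℝ :=
  AddSubgroup.closure ({1} ∪ {θ | ∃ i : Fin k, ∃ u v : ℕ, 0 < u ^ 2 + v ^ 2 ∧
    θ = √((a i * (u ^ 2 + v ^ 2) : ℕ) : ℝ)})

lemma FG_eq {k : ℕ} (a : Fin k → ℕ) : FG ag (fun a => a) a = CG a := by
  unfold FG CG
  congr 2
  ext θ
  simp only [Set.mem_setOf_eq]
  constructor
  · rintro ⟨i, m, h1, h2, h3⟩
    obtain ⟨u, v, h⟩ := (ag_ne_iff h1).mp h2
    refine ⟨i, u, v, by omega, ?_⟩
    rw [h3, ← Real.sqrt_mul (Nat.cast_nonneg _), ← Nat.cast_mul, h]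
  · rintro ⟨i, u, v, h1, h2⟩
    refine ⟨i, u ^ 2 + v ^ 2, h1, (ag_ne_iff h1).mpr ⟨u, v, rfl⟩, ?_⟩
    rw [h2, ← Real.sqrt_mul (Nat.cast_nonneg _), ← Nat.cast_mul]

/-- multiplying by a square does not change whether a number is a sum of two squares -/
lemma S2_of_mul_sq {m t : ℕ} (ht : 0 < t) (h : S2 (m * t ^ 2)) : S2 m := by
  rcases Nat.eq_zero_or_pos m with rfl | hm
  · exact ⟨0, 0, by norm_num⟩
  unfold S2 at h ⊢
  rw [Nat.eq_sq_add_sq_iff] at h ⊢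
  intro q hq h3
  have hqp := Nat.prime_of_mem_primeFactors hq
  haveI : Fact q.Prime := ⟨hqp⟩
  have h4 := h (q := q) (by
    rw [Nat.mem_primeFactors]
    refine ⟨hqp, (Nat.dvd_of_mem_primeFactors hq).mul_right _, ?_⟩
    positivity) h3
  rw [padicValNat.mul (by omega) (by positivity), padicValNat.pow] at h4
  rw [Nat.even_add] at h4
  exact h4.mpr (even_two_mul _)

/-- the squarefree numbers whose square roots occur -/
def Sg {k : ℕ} (a : Fin k → ℕ) : Set ℕ := {s | Squarefree s ∧ (s = 1 ∨ ∃ i, S2 (a i * s))}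

lemma sqrt_sf_decomp {k : ℕ} {a : Fin k → ℕ} {i : Fin k} {u v : ℕ} (hai : 0 < a i) (h : 0 < u ^ 2 + v ^ 2) :
    ∃ s t : ℕ, s ∈ Sg a ∧ 0 < t ∧ √((a i * (u ^ 2 + v ^ 2) : ℕ) : ℝ) = t * √(s : ℝ) ∧
      a i * (u ^ 2 + v ^ 2) = s * t ^ 2 := by
  obtain ⟨s, t, hst, hs⟩ := Nat.sq_mul_squarefree (a i * (u ^ 2 + v ^ 2))
  have hpos : 0 < a i * (u ^ 2 + v ^ 2) := by positivity
  have ht0 : 0 < t := by
    rcases Nat.eq_zero_or_pos t with rfl | h1
    · rw [← hst] at hpos; simp at hpos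
    · exact h1
  refine ⟨s, t, ⟨hs, Or.inr ⟨i, ?_⟩⟩, ht0, ?_, by rw [← hst]; ring⟩
  · have h2 : S2 ((a i * s) * t ^ 2) := by
      refine ⟨a i * u, a i * v, ?_⟩
      calc (a i * s) * t ^ 2 = a i * (t ^ 2 * s) := by ring
        _ = a i * (a i * (u ^ 2 + v ^ 2)) := by rw [hst]
        _ = _ := by ring
    exact S2_of_mul_sq ht0 h2
  · rw [← hst]
    push_cast
    rw [Real.sqrt_mul (by positivity), Real.sqrt_sq (Nat.cast_nonneg _)]

end Pool.Agent.Q209.GC
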