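import Mathlib
import Pool.Agent.Q209.GC.Circ

/-!
# The circle problem: integral combinations of square roots
-/

set_option autoImplicit false

open Filter Topology MeasureTheory
open Pool.Agent.H383.AP Pool.Agent.H425R3.JL Pool.Agent.H383.Gen
open Pool.Agent.H383.Gauss Pool.Agent.H383.Circ

namespace Pool.Agent.Q209.GC

lemma one_mem_Sg {k : ℕ} (a : Fin k → ℕ) : 1 ∈ Sg a := ⟨squarefree_one, Or.inl rfl⟩

/-- the elements of the group are integral combinations of square roots -/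
lemma CG_repr {k : ℕ} {a : Fin k → ℕ} (ha : ∀ i, 0 < a i) {θ : ℝ} (h : θ ∈ CG a) :
    ∃ L : ℕ →₀ ℤ, (∀ s ∈ L.support, s ∈ Sg a) ∧ θ = L.sum (fun s l => (l:ℝ) * √(s:ℝ)) := by
  unfold CG at h
  induction h using AddSubgroup.closure_induction with
  | mem x hx =>
    rcases hx with hx | ⟨i, u, v, h1, h2⟩
    · rw [Set.mem_singleton_iff] at hx
      refine ⟨Finsupp.single 1 1, ?_, ?_⟩
      · intro s hs
        rw [Finsupp.support_single_ne_zero _ (by norm_num), Finset.mem_singleton] at hs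
        rw [hs]; exact one_mem_Sg a
      · rw [Finsupp.sum_single_index (by simp), hx]
        simp
    · obtain ⟨s, t, hs, ht, he, -⟩ := sqrt_sf_decomp (ha i) h1
      refine ⟨Finsupp.single s t, ?_, ?_⟩
      · intro s' hs'
        rw [Finsupp.support_single_ne_zero _ (by omega), Finset.mem_singleton] at hs'
        rw [hs']; exact hs
      · rw [Finsupp.sum_single_index (by simp), h2, he]
        push_cast; rfl
  | zero => exact ⟨0, by simp, by simp⟩
  | add x y _ _ hx hy =>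
    obtain ⟨L, hL, hx⟩ := hx
    obtain ⟨L', hL', hy⟩ := hy
    refine ⟨L + L', ?_, ?_⟩
    · intro s hs
      rcases Finset.mem_union.mp (Finsupp.support_add hs) with h | h
      · exact hL s h
      · exact hL' s h
    · rw [Finsupp.sum_add_index' (by simp) (by intro s m n; push_cast; ring), ← hx, ← hy]
  | neg x _ hx =>
    obtain ⟨L, hL, hx⟩ := hx
    refine ⟨-L, ?_, ?_⟩
    · intro s hs
      rw [Finsupp.support_neg] at hs
      exact hL s hs
    · rw [Finsupp.sum_neg_index (by simp), hx]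
      unfold Finsupp.sum
      rw [← Finset.sum_neg_distrib]
      refine Finset.sum_congr rfl fun s _ => ?_
      push_cast; ring

/-- the field generated by the square roots -/
noncomputable def SK : Subfield ℝ := Subfield.closure (Set.range fun n : ℕ => √(n:ℝ))

lemma CG_le_SK {k : ℕ} (a : Fin k → ℕ) {θ : ℝ} (h : θ ∈ CG a) : θ ∈ SK := by
  unfold CG at h
  induction h using AddSubgroup.closure_induction with
  | mem x hx =>
    rcases hx with hx | ⟨i, u, v, h1, h2⟩
    · rw [Set.mem_singleton_iff] at hx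
      rw [hx]; exact SK.one_mem
    · rw [h2]
      exact Subfield.subset_closure ⟨_, rfl⟩
  | zero => exact SK.zero_mem
  | add x y _ _ hx hy => exact SK.add_mem hx hy
  | neg x _ hx => exact SK.neg_mem hx

lemma not_res_of_field {k : ℕ} (a : Fin k → ℕ) {α : ℝ} (h : α ∉ SK) (j : ℕ) (hj : 0 < j) :
    (j : ℝ) / α ∉ CG a := by
  intro h1
  apply h
  have h2 := CG_le_SK a h1
  have hj' : (j:ℝ) ≠ 0 := by exact_mod_cast hj.ne'
  rcases eq_or_ne α 0 with h0 | h0
  · rw [h0]; exact SK.zero_mem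
  · have h3 : α = (j:ℝ) / ((j:ℝ) / α) := by field_simp
    rw [h3]
    exact SK.div_mem (natCast_mem SK j) h2

/-- coefficients are determined -/
lemma coeff_eq {L : ℕ →₀ ℤ} (hL : ∀ s ∈ L.support, Squarefree s) {d : ℕ} (hd : Squarefree d) (hd1 : d ≠ 1)
    {X Y : ℚ} (h : (X:ℝ) + Y * √(d:ℝ) = L.sum (fun s l => (l:ℝ) * √(s:ℝ))) : (L d : ℚ) = Y := by
  classical
  set v := (fun s : {s : ℕ // Squarefree s} => √((s:ℕ):ℝ)) with hv
  have hind := sf_indep
  rw [linearIndependent_iff] at hind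
  set c : {s : ℕ // Squarefree s} →₀ ℚ :=
    (L.subtypeDomain (fun s => Squarefree s)).mapRange (fun l : ℤ => (l : ℚ)) (by simp) -
      Finsupp.single ⟨1, squarefree_one⟩ X - Finsupp.single ⟨d, hd⟩ Y with hc
  have h1 : Finsupp.linearCombination ℚ v c = 0 := by
    rw [hc, map_sub, map_sub, Finsupp.linearCombination_single, Finsupp.linearCombination_single,
      Finsupp.linearCombination_apply, Finsupp.sum_mapRange_index (by simp)]
    have h2 : ((L.subtypeDomain (fun s => Squarefree s)).sum fun i (l : ℤ) => ((l:ℚ)) • v i) =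
        L.sum (fun s l => (l:ℝ) * √(s:ℝ)) := by
      have h3 := Finsupp.sum_subtypeDomain_index (p := fun s => Squarefree s) (v := L)
        (h := fun s (l : ℤ) => (l:ℝ) * √(s:ℝ)) (fun x hx => hL x hx)
      rw [← h3]
      unfold Finsupp.sum
      refine Finset.sum_congr rfl fun s _ => ?_
      simp only [hv, Rat.smul_def, Rat.cast_intCast]
    rw [h2, ← h, Rat.smul_def, Rat.smul_def]
    simp only [hv, Nat.cast_one, Real.sqrt_one]
    ring
  have h4 := hind c h1
  have h5 := congrArg (fun f => f ⟨d, hd⟩) h4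
  simp only [hc, Finsupp.coe_sub, Pi.sub_apply, Finsupp.mapRange_apply, Finsupp.subtypeDomain_apply,
    Finsupp.coe_zero, Pi.zero_apply] at h5
  rw [Finsupp.single_apply, Finsupp.single_apply, if_neg (by
    intro h6; apply hd1; exact (congrArg Subtype.val h6).symm), if_pos rfl] at h5
  linarith

/-- quadratic slopes without resonance -/
lemma not_res_of_quad {k : ℕ} {a : Fin k → ℕ} (ha : ∀ i, 0 < a i) {d : ℕ} (hd : Squarefree d) (hd1 : d ≠ 1)
    (hS : ∀ i, ¬ S2 (a i * d)) {x y : ℚ} (hy : y ≠ 0) (j : ℕ) (hj : 0 < j) :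
    (j : ℝ) / (x + y * √(d:ℝ)) ∉ CG a := by
  intro h1
  obtain ⟨L, hL, hx⟩ := CG_repr ha h1
  have hir : Irrational (√(d:ℝ)) := by
    rw [irrational_sqrt_natCast_iff]
    rintro ⟨r, hr⟩
    rw [hr] at hd
    have := Nat.isUnit_iff.mp (hd r dvd_rfl)
    apply hd1
    rw [hr, this]
  have hne : x^2 - y^2 * d ≠ 0 := by
    intro h0
    have h2 : ((x / y : ℚ) : ℝ)^2 = d := by
      have : (x/y)^2 = (d:ℚ) := by
        rw [div_pow, div_eq_iff (pow_ne_zero 2 hy)]; linarith
      exact_mod_cast this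
    apply hir
    refine ⟨|x/y|, ?_⟩
    rw [← h2, Real.sqrt_sq_eq_abs]
    push_cast; rfl
  have hne' : ((x:ℝ)^2 - (y:ℝ)^2 * d) ≠ 0 := by exact_mod_cast hne
  have hsq : √(d:ℝ) ^ 2 = d := Real.sq_sqrt (Nat.cast_nonneg d)
  have hα : (x:ℝ) + y * √(d:ℝ) ≠ 0 := by
    intro h0
    apply hne'
    have : ((x:ℝ) + y * √(d:ℝ)) * ((x:ℝ) - y * √(d:ℝ)) = (x:ℝ)^2 - (y:ℝ)^2 * d := by
      ring_nf; rw [hsq]
    rw [← this, h0, zero_mul]
  have h3 : (j:ℝ) / (x + y * √(d:ℝ)) = ((j * x / (x^2 - y^2 * d) : ℚ) : ℝ) +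
      ((-(j * y) / (x^2 - y^2 * d) : ℚ) : ℝ) * √(d:ℝ) := by
    push_cast
    rw [div_eq_iff hα]
    field_simp
    ring_nf
    rw [hsq]
  rw [h3] at hx
  have h4 := coeff_eq (fun s hs => (hL s hs).1) hd hd1 hx
  have h5 : L d ≠ 0 := by
    intro h0
    rw [h0] at h4
    have : (-(j * y) / (x^2 - y^2 * d) : ℚ) ≠ 0 := by
      apply div_ne_zero _ hne
      rw [neg_ne_zero]
      exact mul_ne_zero (by exact_mod_cast hj.ne') hy
    apply this
    rw [← h4]; simp
  rcases (hL d (Finsupp.mem_support_iff.mpr h5)).2 with h6 | ⟨i, h6⟩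
  · exact hd1 h6
  · exact hS i h6

end Pool.Agent.Q209.GC
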