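import Mathlib
import Pool.Agent.Q209.GC.Fld
import Pool.Agent.H383.Exc

/-!
# Independence of the groups generated by square roots
-/

set_option autoImplicit false

open Filter Topology
open Pool.Agent.H383.AP Pool.Agent.H383.Gen Pool.Agent.H383.Gauss

namespace Pool.Agent.Q209.GC

/-- the group generated by square roots -/
def HG (T : Set ℕ) : AddSubgroup ℝ := AddSubgroup.closure ((fun s : ℕ => √(s:ℝ)) '' {s | Squarefree s ∧ s ∈ T})

lemma HG_mono {T T' : Set ℕ} (h : T ⊆ T') : HG T ≤ HG T' := by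
  apply AddSubgroup.closure_mono
  apply Set.image_mono
  rintro s ⟨h1, h2⟩
  exact ⟨h1, h h2⟩

lemma HG_span {T : Set ℕ} {y : ℝ} (hy : y ∈ HG T) : y ∈ Submodule.span ℚ (bs '' {s | (s:ℕ) ∈ T}) := by
  unfold HG at hy
  induction hy using AddSubgroup.closure_induction with
  | mem x hx =>
    obtain ⟨s, ⟨h1, h2⟩, rfl⟩ := hx
    exact Submodule.subset_span ⟨⟨s, h1⟩, h2, rfl⟩
  | zero => exact Submodule.zero_mem _
  | add x y _ _ hx hy => exact Submodule.add_mem _ hx hy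
  | neg x _ hx => exact Submodule.neg_mem _ hx

lemma disj_zero {T T' : Set ℕ} (hd : Disjoint T T') {x : ℝ}
    (h1 : x ∈ Submodule.span ℚ (bs '' {s | (s:ℕ) ∈ T}))
    (h2 : x ∈ Submodule.span ℚ (bs '' {s | (s:ℕ) ∈ T'})) : x = 0 := by
  have h3 : Disjoint {s : {s : ℕ // Squarefree s} | (s:ℕ) ∈ T} {s | (s:ℕ) ∈ T'} := by
    rw [Set.disjoint_left] at hd ⊢
    intro s h h'
    exact hd h h'
  have h4 := sf_indep.disjoint_span_image h3
  exact Submodule.disjoint_def.mp h4 x h1 h2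

lemma int_span {T : Set ℕ} (h1 : 1 ∈ T) (k : ℤ) : (k:ℝ) ∈ Submodule.span ℚ (bs '' {s | (s:ℕ) ∈ T}) := by
  have e : (k:ℝ) = (k:ℚ) • bs ⟨1, squarefree_one⟩ := by
    rw [Rat.smul_def]; simp [bs]
  rw [e]
  exact Submodule.smul_mem _ _ (Submodule.subset_span ⟨_, h1, rfl⟩)

/-- an integer in the group is zero -/
lemma int_zero {T : Set ℕ} (h1 : 1 ∉ T) {θ : ℝ} (h : θ ∈ HG T) (hk : ∃ k : ℤ, θ = k) : θ = 0 := by
  obtain ⟨k, hk⟩ := hk
  apply disj_zero (T := T) (T' := {1}) (by simpa using h1) (HG_span h)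
  rw [hk]
  exact int_span (T := {1}) (Set.mem_singleton 1) k

lemma Ind_HG {T T' : Set ℕ} (hd : Disjoint T T') (h1 : 1 ∉ T) : Ind (HG T) (HG T') := by
  intro θ hθ θ' hθ' hk
  obtain ⟨k, hk⟩ := hk
  have h2 : θ = 0 := by
    apply disj_zero (T := T) (T' := T' ∪ {1})
    · rw [Set.disjoint_union_right]
      exact ⟨hd, by simpa using h1⟩
    · exact HG_span hθ
    · have e : θ = k - θ' := by linarith
      rw [e]
      apply Submodule.sub_mem
      · exact int_span (Or.inr rfl) k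
      · exact Submodule.span_mono (Set.image_mono (fun s hs => Or.inl hs)) (HG_span hθ')
  exact ⟨0, by rw [h2]; simp⟩

/-- the squarefree part -/
noncomputable def sfp (m : ℕ) : ℕ := (Nat.sq_mul_squarefree m).choose

lemma sfp_spec (m : ℕ) : ∃ t : ℕ, t ^ 2 * sfp m = m ∧ Squarefree (sfp m) :=
  (Nat.sq_mul_squarefree m).choose_spec

lemma sqrt_sfp (m : ℕ) : ∃ t : ℕ, √(m:ℝ) = t * √(sfp m : ℝ) ∧ Squarefree (sfp m) ∧ t ^ 2 * sfp m = m := by
  obtain ⟨t, h1, h2⟩ := sfp_spec m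
  refine ⟨t, ?_, h2, h1⟩
  conv_lhs => rw [← h1]
  push_cast
  rw [Real.sqrt_mul (by positivity), Real.sqrt_sq (Nat.cast_nonneg _)]

/-- the squarefree part is unique -/
lemma sfp_eq {s t : ℕ} (hs : Squarefree s) (ht : 0 < t) : sfp (s * t ^ 2) = s := by
  by_contra hne
  obtain ⟨t', h1, h2, h3⟩ := sqrt_sfp (s * t ^ 2)
  have hs0 : 0 < s := Nat.pos_of_ne_zero hs.ne_zero
  have h4 : √((s * t ^ 2 : ℕ):ℝ) = t * √(s:ℝ) := by
    push_cast
    rw [Real.sqrt_mul (by positivity), Real.sqrt_sq (Nat.cast_nonneg _), mul_comm]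
  have h5 : √((s * t ^ 2 : ℕ):ℝ) = 0 := by
    apply disj_zero (T := {s}) (T' := {sfp (s * t ^ 2)})
    · rw [Set.disjoint_singleton]
      exact fun h => hne h.symm
    · rw [h4]
      have e : (t:ℝ) * √(s:ℝ) = (t:ℚ) • bs ⟨s, hs⟩ := by rw [Rat.smul_def]; simp [bs]
      rw [e]
      exact Submodule.smul_mem _ _ (Submodule.subset_span ⟨_, rfl, rfl⟩)
    · rw [h1]
      have e : (t':ℝ) * √(sfp (s * t^2):ℝ) = (t':ℚ) • bs ⟨sfp (s * t^2), h2⟩ := by rw [Rat.smul_def]; simp [bs]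
      rw [e]
      exact Submodule.smul_mem _ _ (Submodule.subset_span ⟨_, rfl, rfl⟩)
  have h6 : (0:ℝ) < √((s * t ^ 2 : ℕ):ℝ) := by
    apply Real.sqrt_pos.mpr
    positivity
  linarith

open Classical in
/-- the coefficients of the classes in `T` -/
noncomputable def cT (af : ℕ → ℝ) (a : ℕ) (T : Set ℕ) : ℕ → ℝ := fun m => if sfp (a * m) ∈ T then af m else 0

/-- the part of the model polynomial with the frequencies in the classes of `T` -/
noncomputable def UT (af : ℕ → ℝ) (φ : ℝ) (a : ℕ) (X : ℝ) (M : ℕ) (T : Set ℕ) (n : ℕ) : ℝ :=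
  U (cT af a T) φ (X + n * √(a:ℝ)) M

variable {af : ℕ → ℝ} {φ : ℝ} {a : ℕ} {X : ℝ} {M : ℕ}

lemma UT_mem {T : Set ℕ} : (fun n => ((UT af φ a X M T n : ℝ) : ℂ)) ∈ Pool.Agent.H383.AP.TG (HG T) := by
  unfold UT
  rw [U_trig]
  apply Submodule.sum_mem
  intro m hm
  by_cases h0 : sfp (a * m) ∈ T
  · obtain ⟨t, h1, h2, h3⟩ := sqrt_sfp (a * m)
    have h4 : √(a:ℝ) * √(m:ℝ) ∈ HG T := by
      rw [← Real.sqrt_mul (Nat.cast_nonneg _), ← Nat.cast_mul, h1, ← nsmul_eq_mul]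
      apply AddSubgroup.nsmul_mem
      exact AddSubgroup.subset_closure ⟨_, ⟨h2, h0⟩, rfl⟩
    exact (Pool.Agent.H383.AP.TG (HG T)).add_mem
      ((Pool.Agent.H383.AP.TG (HG T)).smul_mem _ (chr_mem_TG h4))
      ((Pool.Agent.H383.AP.TG (HG T)).smul_mem _ (chr_mem_TG ((HG T).neg_mem h4)))
  · have h1 : ac (cT af a T) φ X m = 0 := by unfold ac cT; rw [if_neg h0]; simp
    rw [h1]
    simp only [zero_div, map_zero, zero_smul, add_zero]
    exact (Pool.Agent.H383.AP.TG (HG T)).zero_mem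

lemma UT_add {T T' : Set ℕ} (hd : Disjoint T T') (n : ℕ) :
    UT af φ a X M (T ∪ T') n = UT af φ a X M T n + UT af φ a X M T' n := by
  unfold UT U
  rw [← Finset.sum_add_distrib]
  refine Finset.sum_congr rfl fun m _ => ?_
  rw [← add_mul]
  congr 1
  unfold cT
  by_cases h1 : sfp (a * m) ∈ T
  · have h2 : sfp (a * m) ∉ T' := fun h => Set.disjoint_left.mp hd h1 h
    rw [if_pos (Set.mem_union_left T' h1), if_pos h1, if_neg h2, add_zero]
  · by_cases h2 : sfp (a * m) ∈ T'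
    · rw [if_pos (Set.mem_union_right T h2), if_neg h1, if_pos h2, zero_add]
    · have h3 : sfp (a * m) ∉ T ∪ T' := by
        intro h
        rcases h with h | h
        exacts [h1 h, h2 h]
      rw [if_neg h3, if_neg h1, if_neg h2, add_zero]

lemma UT_univ (n : ℕ) : UT af φ a X M Set.univ n = U af φ (X + n * √(a:ℝ)) M := by
  unfold UT U
  refine Finset.sum_congr rfl fun m _ => ?_
  unfold cT
  rw [if_pos (Set.mem_univ _)]

/-- a class without integers has mean zero -/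
lemma mn_UT {T : Set ℕ} (h1 : 1 ∉ T) (ha : 0 < a) : mn (fun n => ((UT af φ a X M T n : ℝ) : ℂ)) = 0 := by
  apply HasMean.mn_eq
  unfold UT
  rw [U_trig]
  rw [show (0:ℂ) = ∑ m ∈ Finset.Icc 1 (M^2), (0:ℂ) by simp]
  apply HasMean.sum
  intro m hm
  rw [Finset.mem_Icc] at hm
  by_cases h0 : sfp (a * m) ∈ T
  · obtain ⟨t, h1', h2, h3⟩ := sqrt_sfp (a * m)
    have h4 : √(a:ℝ) * √(m:ℝ) ∈ HG T := by
      rw [← Real.sqrt_mul (Nat.cast_nonneg _), ← Nat.cast_mul, h1', ← nsmul_eq_mul]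
      apply AddSubgroup.nsmul_mem
      exact AddSubgroup.subset_closure ⟨_, ⟨h2, h0⟩, rfl⟩
    have h5 : √(a:ℝ) * √(m:ℝ) ≠ 0 := by
      have : (0:ℝ) < a := by exact_mod_cast ha
      have : (0:ℝ) < m := by exact_mod_cast hm.1
      positivity
    have h6 : ¬ ∃ k : ℤ, √(a:ℝ) * √(m:ℝ) = k := fun h => h5 (int_zero h1 h4 h)
    have h7 : ¬ ∃ k : ℤ, -(√(a:ℝ) * √(m:ℝ)) = k := fun h => h5 (by
      have := int_zero h1 ((HG T).neg_mem h4) h
      linarith)
    have := ((chr_mean_non h6).smul (ac (cT af a T) φ X m / 2)).add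
      ((chr_mean_non h7).smul ((starRingEnd ℂ) (ac (cT af a T) φ X m) / 2))
    simpa using this
  · have h2 : ac (cT af a T) φ X m = 0 := by unfold ac cT; rw [if_neg h0]; simp
    rw [h2]
    simp only [zero_div, map_zero, zero_smul, add_zero]
    exact hasMean_zero

/-- the coefficient at a frequency of a class -/
lemma mn_UT_chr {s : ℕ} (hs : Squarefree s) (hs1 : s ≠ 1) {L : ℤ} (hL : L ≠ 0) {m0 : ℕ} (ha : 0 < a)
    (hm0 : a * m0 = s * L.natAbs ^ 2) (hM : m0 ≤ M ^ 2) :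
    ‖mn ((fun n => ((UT af φ a X M {s} n : ℝ) : ℂ)) * chr (-(L * √(s:ℝ))))‖ = |af m0| / 2 := by
  have hLpos : 0 < L.natAbs := Int.natAbs_pos.mpr hL
  have hs0 : 0 < s := Nat.pos_of_ne_zero hs.ne_zero
  have hm1 : 1 ≤ m0 := by
    rcases Nat.eq_zero_or_pos m0 with h | h
    · rw [h, mul_zero] at hm0
      have : 0 < s * L.natAbs ^ 2 := by positivity
      omega
    · exact h
  have hsm : sfp (a * m0) = s := by rw [hm0]; exact sfp_eq hs hLpos
  have hcm : cT af a {s} m0 = af m0 := by unfold cT; rw [if_pos (by rw [hsm]; rfl)]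
  have hssq : ∀ j : ℤ, (∃ k : ℤ, (j:ℝ) * √(s:ℝ) = k) → j = 0 := by
    intro j hj
    have h1 : (j:ℝ) * √(s:ℝ) ∈ HG {s} := by
      rw [← zsmul_eq_mul]
      apply AddSubgroup.zsmul_mem
      exact AddSubgroup.subset_closure ⟨_, ⟨hs, rfl⟩, rfl⟩
    have h2 := int_zero (T := {s}) (by simpa using Ne.symm hs1) h1 hj
    have h3 : √(s:ℝ) ≠ 0 := by
      have : (0:ℝ) < s := by exact_mod_cast hs0
      positivity
    have h4 : (j:ℝ) = 0 := by
      rcases mul_eq_zero.mp h2 with h | h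
      · exact h
      · exact absurd h h3
    exact_mod_cast h4
  -- the mean of each term
  set A : ℕ → ℂ := fun m => ac (cT af a {s}) φ X m with hA
  set tm : ℕ → ℂ := fun m => A m / 2 * mc (√(a:ℝ) * √(m:ℝ) + -(L * √(s:ℝ))) +
    (starRingEnd ℂ) (A m) / 2 * mc (-(√(a:ℝ) * √(m:ℝ)) + -(L * √(s:ℝ))) with htm
  have hmean : HasMean ((fun n => ((UT af φ a X M {s} n : ℝ) : ℂ)) * chr (-(L * √(s:ℝ))))
      (∑ m ∈ Finset.Icc 1 (M^2), tm m) := by
    unfold UT
    rw [U_trig, Finset.sum_mul]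
    apply HasMean.sum
    intro m _
    rw [add_mul, smul_mul_assoc, smul_mul_assoc, chr_mul, chr_mul]
    exact ((chr_mean _).smul _).add ((chr_mean _).smul _)
  have hzero : ∀ m ∈ Finset.Icc 1 (M^2), m ≠ m0 → tm m = 0 := by
    intro m hm hne
    rw [Finset.mem_Icc] at hm
    by_cases h0 : sfp (a * m) = s
    · obtain ⟨t, h1, h2, h3⟩ := sqrt_sfp (a * m)
      have h4 : √(a:ℝ) * √(m:ℝ) = t * √(s:ℝ) := by
        rw [← Real.sqrt_mul (Nat.cast_nonneg _), ← Nat.cast_mul, h1, h0]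
      have h5 : t ≠ L.natAbs := by
        intro h
        apply hne
        rw [h0, h] at h3
        have : a * m = a * m0 := by rw [hm0, ← h3]; ring
        exact Nat.eq_of_mul_eq_mul_left ha this
      have h6 : mc (√(a:ℝ) * √(m:ℝ) + -(L * √(s:ℝ))) = 0 := by
        unfold mc
        rw [if_neg]
        intro hk
        have := hssq (t - L) (by
          obtain ⟨k, hk⟩ := hk
          refine ⟨k, ?_⟩
          rw [← hk, h4]; push_cast; ring)
        omega
      have h7 : mc (-(√(a:ℝ) * √(m:ℝ)) + -(L * √(s:ℝ))) = 0 := by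
        unfold mc
        rw [if_neg]
        intro hk
        have := hssq (-t - L) (by
          obtain ⟨k, hk⟩ := hk
          refine ⟨k, ?_⟩
          rw [← hk, h4]; push_cast; ring)
        omega
      simp only [htm]
      rw [h6, h7, mul_zero, mul_zero, add_zero]
    · have h1 : A m = 0 := by
        simp only [hA]
        unfold ac cT
        have h2 : sfp (a * m) ∉ ({s} : Set ℕ) := h0
        rw [if_neg h2]; simp
      simp only [htm]
      rw [h1]; simp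
  have hsum : ∑ m ∈ Finset.Icc 1 (M^2), tm m = tm m0 := by
    apply Finset.sum_eq_single_of_mem m0 (by rw [Finset.mem_Icc]; exact ⟨hm1, hM⟩)
    exact hzero
  rw [hmean.mn_eq, hsum]
  have h4 : √(a:ℝ) * √(m0:ℝ) = L.natAbs * √(s:ℝ) := by
    rw [← Real.sqrt_mul (Nat.cast_nonneg _), ← Nat.cast_mul, hm0]
    push_cast
    rw [Real.sqrt_mul (Nat.cast_nonneg _), Real.sqrt_sq (by positivity), mul_comm]
  have hn : ‖A m0‖ = |af m0| := by
    simp only [hA]
    rw [norm_ac, hcm]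
  have hmc1 : ∀ j : ℤ, j ≠ 0 → mc ((j:ℝ) * √(s:ℝ)) = 0 := by
    intro j hj
    unfold mc
    rw [if_neg (fun h => hj (hssq j h))]
  have hmc0 : mc 0 = 1 := by unfold mc; rw [if_pos ⟨0, by simp⟩]
  rcases lt_or_gt_of_ne hL with hneg | hpos
  · have e1 : √(a:ℝ) * √(m0:ℝ) + -(L * √(s:ℝ)) = ((L.natAbs - L : ℤ):ℝ) * √(s:ℝ) := by
      rw [h4, Nat.cast_natAbs]; push_cast; ring
    have e2 : -(√(a:ℝ) * √(m0:ℝ)) + -(L * √(s:ℝ)) = 0 := by
      rw [h4]
      have : ((L.natAbs : ℕ):ℝ) = -L := by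
        rw [← Int.cast_natCast, Int.natCast_natAbs, abs_of_neg hneg]; push_cast; ring
      rw [this]; ring
    simp only [htm]
    rw [e1, e2, hmc1 _ (by omega), hmc0, mul_zero, zero_add, mul_one, norm_div, RCLike.norm_conj, hn]
    norm_num
  · have e1 : √(a:ℝ) * √(m0:ℝ) + -(L * √(s:ℝ)) = 0 := by
      rw [h4]
      have : ((L.natAbs : ℕ):ℝ) = L := by
        rw [← Int.cast_natCast, Int.natCast_natAbs, abs_of_pos hpos]
      rw [this]; ring
    have e2 : -(√(a:ℝ) * √(m0:ℝ)) + -(L * √(s:ℝ)) = ((-L.natAbs - L : ℤ):ℝ) * √(s:ℝ) := by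
      rw [h4, Nat.cast_natAbs]; push_cast; ring
    simp only [htm]
    rw [e1, e2, hmc1 _ (by omega), hmc0, mul_zero, add_zero, mul_one, norm_div, hn]
    norm_num

end Pool.Agent.Q209.GC
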