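import Mathlib
import Pool.Agent.Q209.GC.Sep1

/-!
# A Fourier coefficient that does not vanish
-/

set_option autoImplicit false

open Filter Topology
open Pool.Agent.H383.AP Pool.Agent.H383.Gen Pool.Agent.H383.Gauss

namespace Pool.Agent.Q209.GC

/-- the mean square is bounded -/
def MB (V : ℕ → ℝ) (C : ℝ) : Prop := ∃ N0 : ℕ, ∀ N : ℕ, N0 ≤ N → rm (fun n => V n ^ 2) N ≤ C

/-- the exponential -/
noncomputable def ex (τ : ℝ) (V : ℕ → ℝ) : ℕ → ℂ := fun n => Complex.exp (((τ : ℂ) * Complex.I) * ((V n : ℝ) : ℂ))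

lemma norm_ex (τ : ℝ) (V : ℕ → ℝ) (n : ℕ) : ‖ex τ V n‖ = 1 := by
  unfold ex
  rw [show ((τ : ℂ) * Complex.I) * ((V n : ℝ) : ℂ) = ((τ * V n : ℝ) : ℂ) * Complex.I by push_cast; ring]
  exact Complex.norm_exp_ofReal_mul_I _

lemma ex_UC {Γ : AddSubgroup ℝ} {V : ℕ → ℝ} (hV : (fun n => ((V n : ℝ) : ℂ)) ∈ Pool.Agent.H383.AP.TG Γ) (τ : ℝ) :
    ex τ V ∈ UC Γ := UC_exp hV _

lemma ex_sub_one (τ : ℝ) (V : ℕ → ℝ) (n : ℕ) : ‖ex τ V n - 1‖ ≤ |τ * V n| := by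
  unfold ex
  rw [show ((τ : ℂ) * Complex.I) * ((V n : ℝ) : ℂ) = Complex.I * ((τ * V n : ℝ) : ℂ) by push_cast; ring]
  exact Real.norm_exp_I_mul_ofReal_sub_one_le

lemma ex_sub_two (τ : ℝ) (V : ℕ → ℝ) (n : ℕ) :
    ‖ex τ V n - 1 - (τ : ℂ) * Complex.I * ((V n : ℝ) : ℂ)‖ ≤ 3 * (τ * V n) ^ 2 := by
  set z : ℂ := (τ : ℂ) * Complex.I * ((V n : ℝ) : ℂ) with hz
  have hzn : ‖z‖ = |τ * V n| := by
    rw [hz, norm_mul, norm_mul, Complex.norm_I, mul_one, Complex.norm_real, Complex.norm_real,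
      Real.norm_eq_abs, Real.norm_eq_abs, abs_mul]
  have he : ex τ V n = Complex.exp z := rfl
  by_cases h : ‖z‖ ≤ 1
  · have h1 := Complex.norm_exp_sub_one_sub_id_le h
    rw [he]
    refine h1.trans ?_
    rw [hzn, sq_abs]
    nlinarith [sq_nonneg (τ * V n)]
  · push Not at h
    have h1 := ex_sub_one τ V n
    have h2 : ‖ex τ V n - 1 - z‖ ≤ ‖ex τ V n - 1‖ + ‖z‖ := norm_sub_le _ _
    rw [hzn] at h h2
    have h3 : (τ * V n) ^ 2 = |τ * V n| ^ 2 := (sq_abs _).symm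
    rw [h3]
    nlinarith

/-- mean of the exponential of a function with small mean square -/
lemma mn_ex_close {Γ : AddSubgroup ℝ} {V : ℕ → ℝ}
    (hV : (fun n => ((V n : ℝ) : ℂ)) ∈ Pool.Agent.H383.AP.TG Γ) {C τ : ℝ} (hC : MB V C) (hτ : 0 ≤ τ) :
    ‖mn (ex τ V) - 1‖ ≤ τ * (1 + C) := by
  obtain ⟨N0, hN0⟩ := hC
  have h1 := UC_hasMean (ex_UC hV τ)
  have h2 : HasMean (1 : ℕ → ℂ) 1 := by
    have := hasMean_const (1:ℂ)
    exact this
  apply mean_close h1 h2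
  refine ⟨N0, fun N hN => ?_⟩
  refine (norm_cm_sub_le _ _ N).trans ?_
  have h3 : rm (fun n => ‖ex τ V n - (1 : ℕ → ℂ) n‖) N ≤ rm (fun n => τ * (1 + V n ^ 2)) N := by
    apply rm_mono
    intro n
    refine (ex_sub_one τ V n).trans ?_
    rw [abs_mul, abs_of_nonneg hτ]
    apply mul_le_mul_of_nonneg_left _ hτ
    nlinarith [sq_abs (V n), sq_nonneg (|V n| - 1), abs_nonneg (V n)]
  refine h3.trans ?_
  rw [rm_mul, rm_add]
  apply mul_le_mul_of_nonneg_left _ hτ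
  exact add_le_add (rm_const_le zero_le_one N) (hN0 N hN)

lemma chr_UC {Γ : AddSubgroup ℝ} {ω : ℝ} (h : ω ∈ Γ) : chr ω ∈ UC Γ := TG_sub_UC (chr_mem_TG h)

/-- first order expansion -/
lemma mn_ex_chr {Γ : AddSubgroup ℝ} {V : ℕ → ℝ}
    (hV : (fun n => ((V n : ℝ) : ℂ)) ∈ Pool.Agent.H383.AP.TG Γ) {C τ ω : ℝ} (hC : MB V C) (hω : ω ∈ Γ)
    (hωk : ¬ ∃ k : ℤ, ω = k) :
    ‖mn (ex τ V * chr ω) - (τ : ℂ) * Complex.I * mn ((fun n => ((V n : ℝ) : ℂ)) * chr ω)‖ ≤ 3 * τ ^ 2 * C := by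
  obtain ⟨N0, hN0⟩ := hC
  have h1 := UC_hasMean (UC_mul (ex_UC hV τ) (chr_UC hω))
  have h2 := Trig_hasMean (TG_le_Trig Γ (TG_mul hV (chr_mem_TG hω)))
  have h3 := (chr_mean_non hωk).add (h2.smul ((τ : ℂ) * Complex.I))
  rw [zero_add] at h3
  apply mean_close h1 h3
  refine ⟨N0, fun N hN => ?_⟩
  refine (norm_cm_sub_le _ _ N).trans ?_
  have h4 : rm (fun n => ‖(ex τ V * chr ω) n - (chr ω + ((τ : ℂ) * Complex.I) • ((fun n => ((V n : ℝ) : ℂ)) * chr ω)) n‖) N ≤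
      rm (fun n => (3 * τ ^ 2) * (V n ^ 2)) N := by
    apply rm_mono
    intro n
    have e : (ex τ V * chr ω) n - (chr ω + ((τ : ℂ) * Complex.I) • ((fun n => ((V n : ℝ) : ℂ)) * chr ω)) n =
        (ex τ V n - 1 - (τ : ℂ) * Complex.I * ((V n : ℝ) : ℂ)) * chr ω n := by
      simp only [Pi.mul_apply, Pi.add_apply, Pi.smul_apply, smul_eq_mul]
      ring
    rw [e, norm_mul, norm_chr, mul_one]
    refine (ex_sub_two τ V n).trans (le_of_eq ?_)
    ring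
  refine h4.trans ?_
  rw [rm_mul]
  exact mul_le_mul_of_nonneg_left (hN0 N hN) (by positivity)

variable {af : ℕ → ℝ} {φ : ℝ} {a : ℕ} {X : ℝ} {M : ℕ}

lemma rm_lim {Γ : AddSubgroup ℝ} {V : ℕ → ℝ}
    (hV : (fun n => ((V n : ℝ) : ℂ)) ∈ Pool.Agent.H383.AP.TG Γ) :
    Tendsto (rm fun n => V n ^ 2) atTop (𝓝 (mn ((fun n => ((V n : ℝ) : ℂ)) * (fun n => ((V n : ℝ) : ℂ)))).re) := by
  have h := Trig_hasMean (TG_le_Trig Γ (TG_mul hV hV))
  unfold HasMean at h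
  have h2 := (Complex.continuous_re.tendsto _).comp h
  refine h2.congr (fun N => ?_)
  have e : ((fun n => ((V n : ℝ) : ℂ)) * (fun n => ((V n : ℝ) : ℂ))) = fun n => ((V n ^ 2 : ℝ) : ℂ) := by
    funext n; simp only [Pi.mul_apply]; push_cast; ring
  simp only [Function.comp_apply]
  rw [e, cm_ofReal, Complex.ofReal_re]

/-- the parts of a function with bounded mean square -/
lemma MB_parts {T : Set ℕ} (h1 : 1 ∉ T) (ha : 0 < a) {C : ℝ}
    (hC : MB (fun n => U af φ (X + n * √(a:ℝ)) M) C) :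
    MB (UT af φ a X M T) (C + 1) ∧ MB (UT af φ a X M Tᶜ) (C + 1) := by
  set f : ℕ → ℂ := fun n => ((UT af φ a X M T n : ℝ) : ℂ) with hf
  set g : ℕ → ℂ := fun n => ((UT af φ a X M Tᶜ n : ℝ) : ℂ) with hg
  have hf1 : f ∈ Pool.Agent.H383.AP.TG (HG T) := UT_mem
  have hg1 : g ∈ Pool.Agent.H383.AP.TG (HG Tᶜ) := UT_mem
  have hf2 : f ∈ Trig := TG_le_Trig _ hf1
  have hg2 : g ∈ Trig := TG_le_Trig _ hg1
  have hcross : mn (f * g) = 0 := by
    rw [mn_mul_TG (Ind_HG disjoint_compl_right h1) hf1 hg1, hf, mn_UT h1 ha, zero_mul]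
  have hU : ∀ n : ℕ, U af φ (X + n * √(a:ℝ)) M = UT af φ a X M T n + UT af φ a X M Tᶜ n := by
    intro n
    rw [← UT_add disjoint_compl_right, Set.union_compl_self, UT_univ]
  have hUU : mn ((fun n : ℕ => ((U af φ (X + n * √(a:ℝ)) M : ℝ) : ℂ)) * (fun n : ℕ => ((U af φ (X + n * √(a:ℝ)) M : ℝ) : ℂ))) =
      mn (f * f) + mn (g * g) := by
    have e : ((fun n : ℕ => ((U af φ (X + n * √(a:ℝ)) M : ℝ) : ℂ)) * (fun n : ℕ => ((U af φ (X + n * √(a:ℝ)) M : ℝ) : ℂ))) =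
        (f * f + (2:ℂ) • (f * g)) + g * g := by
      funext n
      simp only [Pi.mul_apply, Pi.add_apply, Pi.smul_apply, smul_eq_mul, hf, hg, hU n]
      push_cast; ring
    rw [e, mn_add (Trig.add_mem (Trig_mul hf2 hf2) (Trig.smul_mem _ (Trig_mul hf2 hg2))) (Trig_mul hg2 hg2),
      mn_add (Trig_mul hf2 hf2) (Trig.smul_mem _ (Trig_mul hf2 hg2)), mn_smul _ (Trig_mul hf2 hg2), hcross,
      mul_zero, add_zero]
  have lf := rm_lim hf1
  have lg := rm_lim hg1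
  have lU : Tendsto (rm fun n : ℕ => (U af φ (X + n * √(a:ℝ)) M) ^ 2) atTop (𝓝 ((mn (f * f)).re + (mn (g * g)).re)) := by
    have h := Trig_hasMean (Trig_mul (U_mem_Trig af φ (√(a:ℝ)) X M) (U_mem_Trig af φ (√(a:ℝ)) X M))
    unfold HasMean at h
    rw [hUU] at h
    have h2 := (Complex.continuous_re.tendsto _).comp h
    rw [Complex.add_re] at h2
    refine h2.congr (fun N => ?_)
    have e : ((fun n : ℕ => ((U af φ (X + n * √(a:ℝ)) M : ℝ) : ℂ)) * (fun n : ℕ => ((U af φ (X + n * √(a:ℝ)) M : ℝ) : ℂ))) =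
        fun n : ℕ => (((U af φ (X + n * √(a:ℝ)) M) ^ 2 : ℝ) : ℂ) := by
      funext n; simp only [Pi.mul_apply]; push_cast; ring
    simp only [Function.comp_apply]
    rw [e, cm_ofReal, Complex.ofReal_re]
  have nf : 0 ≤ (mn (f * f)).re := ge_of_tendsto lf (Eventually.of_forall fun N => rm_nonneg (fun n => sq_nonneg _) N)
  have ng : 0 ≤ (mn (g * g)).re := ge_of_tendsto lg (Eventually.of_forall fun N => rm_nonneg (fun n => sq_nonneg _) N)
  obtain ⟨N0, hN0⟩ := hC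
  have hle : (mn (f * f)).re + (mn (g * g)).re ≤ C := by
    apply le_of_tendsto lU
    filter_upwards [eventually_ge_atTop N0] with N hN
    exact hN0 N hN
  constructor
  · obtain ⟨N1, hN1⟩ := (lf.eventually_lt_const (show (mn (f * f)).re < C + 1 by linarith)).exists_forall_of_atTop
    exact ⟨N1, fun N hN => (hN1 N hN).le⟩
  · obtain ⟨N1, hN1⟩ := (lg.eventually_lt_const (show (mn (g * g)).re < C + 1 by linarith)).exists_forall_of_atTop
    exact ⟨N1, fun N hN => (hN1 N hN).le⟩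

lemma sqrt_mem_HG {s : ℕ} {T : Set ℕ} (hs : Squarefree s) (h : s ∈ T) (L : ℤ) : (L:ℝ) * √(s:ℝ) ∈ HG T := by
  rw [← zsmul_eq_mul]
  apply AddSubgroup.zsmul_mem
  exact AddSubgroup.subset_closure ⟨_, ⟨hs, h⟩, rfl⟩

/-- the product formula -/
lemma mn_prod (τ : ℝ) (L : ℕ → ℤ) (F : Finset ℕ) : (∀ s ∈ F, Squarefree s ∧ s ≠ 1) →
    mn (ex τ (UT af φ a X M (F : Set ℕ)) * chr (-∑ s ∈ F, (L s:ℝ) * √(s:ℝ))) =
      ∏ s ∈ F, mn (ex τ (UT af φ a X M {s}) * chr (-((L s:ℝ) * √(s:ℝ)))) := by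
  classical
  induction F using Finset.induction_on with
  | empty =>
    intro _
    have e : ex τ (UT af φ a X M ((∅ : Finset ℕ) : Set ℕ)) * chr (-∑ s ∈ (∅ : Finset ℕ), (L s:ℝ) * √(s:ℝ)) = 1 := by
      rw [Finset.sum_empty, neg_zero, chr_zero, mul_one]
      funext n
      unfold ex
      have : UT af φ a X M ((∅ : Finset ℕ) : Set ℕ) n = 0 := by
        unfold UT U cT
        simp
      rw [this]; simp
    rw [e, mn_one, Finset.prod_empty]
  | insert s F hs ih =>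
    intro hF
    have hs' := hF s (Finset.mem_insert_self s F)
    have ih' := ih (fun s hs => hF s (Finset.mem_insert_of_mem hs))
    have hd : Disjoint ({s} : Set ℕ) (F : Set ℕ) := by
      rw [Set.disjoint_singleton_left]; exact_mod_cast hs
    have e : ex τ (UT af φ a X M ((insert s F : Finset ℕ) : Set ℕ)) * chr (-∑ s ∈ insert s F, (L s:ℝ) * √(s:ℝ)) =
        (ex τ (UT af φ a X M {s}) * chr (-((L s:ℝ) * √(s:ℝ)))) *
          (ex τ (UT af φ a X M (F : Set ℕ)) * chr (-∑ s ∈ F, (L s:ℝ) * √(s:ℝ))) := by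
      rw [Finset.sum_insert hs, neg_add, ← chr_mul]
      funext n
      simp only [Pi.mul_apply]
      have : ex τ (UT af φ a X M ((insert s F : Finset ℕ) : Set ℕ)) n =
          ex τ (UT af φ a X M {s}) n * ex τ (UT af φ a X M (F : Set ℕ)) n := by
        unfold ex
        rw [← Complex.exp_add, Finset.coe_insert, Set.insert_eq, UT_add hd]
        congr 1
        push_cast; ring
      rw [this]; ring
    rw [e, Finset.prod_insert hs, ← ih']
    apply mn_mul (Ind_HG hd (by simpa using Ne.symm hs'.2))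
    · exact UC_mul (ex_UC UT_mem τ) (chr_UC ((HG _).neg_mem (sqrt_mem_HG hs'.1 (Set.mem_singleton s) _)))
    · refine UC_mul (ex_UC UT_mem τ) (chr_UC ((HG _).neg_mem ?_))
      apply AddSubgroup.sum_mem
      intro s2 hs2
      exact sqrt_mem_HG (hF s2 (Finset.mem_insert_of_mem hs2)).1 (by exact_mod_cast hs2) _

/-- a Fourier coefficient that does not vanish -/
theorem sep {e : ℕ → ℝ} (hAp : Ap af φ e (√(a:ℝ)) X) (ha : 0 < a) (F : Finset ℕ)
    (hF : ∀ s ∈ F, Squarefree s ∧ s ≠ 1) (L : ℕ → ℤ) (hL : ∀ s ∈ F, L s ≠ 0) (m : ℕ → ℕ)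
    (hm : ∀ s ∈ F, a * m s = s * (L s).natAbs ^ 2 ∧ af (m s) ≠ 0) :
    ∃ τ c : ℝ, 0 < τ ∧ 0 < c ∧ ∃ N0 : ℕ, ∀ N : ℕ, N0 ≤ N →
      c ≤ ‖cm (ex τ e * chr (-∑ s ∈ F, (L s:ℝ) * √(s:ℝ))) N‖ := by
  -- uniform bound of the mean squares
  obtain ⟨M0, hM0⟩ := hAp 1 one_pos
  obtain ⟨B0, hB0, hB⟩ := Trig_bdd (U_mem_Trig af φ (√(a:ℝ)) X M0)
  set C : ℝ := 3 * (2 + B0 ^ 2) + 1 with hCdef
  have hC0 : 0 < C := by positivity
  have hMB : ∀ M, M0 ≤ M → MB (fun n => U af φ (X + n * √(a:ℝ)) M) (3 * (2 + B0 ^ 2)) := by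
    intro M hM
    obtain ⟨N1, hN1⟩ := hM0 M hM
    obtain ⟨N2, hN2⟩ := hM0 M0 le_rfl
    refine ⟨max N1 N2, fun N hN => ?_⟩
    have a1 := hN1 N (by omega)
    have a2 := hN2 N (by omega)
    have a3 : rm (fun n => (U af φ (X + n * √(a:ℝ)) M) ^ 2) N ≤
        rm (fun n => 3 * (((e n - U af φ (X + n * √(a:ℝ)) M) ^ 2 + (e n - U af φ (X + n * √(a:ℝ)) M0) ^ 2) + B0 ^ 2)) N := by
      apply rm_mono
      intro n
      have hb := hB n
      rw [Complex.norm_real, Real.norm_eq_abs] at hb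
      have hb2 : (U af φ (X + n * √(a:ℝ)) M0) ^ 2 ≤ B0 ^ 2 := by
        rw [← sq_abs]; exact pow_le_pow_left₀ (abs_nonneg _) hb 2
      nlinarith [sq_nonneg ((e n - U af φ (X + n * √(a:ℝ)) M) + (e n - U af φ (X + n * √(a:ℝ)) M0)),
        sq_nonneg ((e n - U af φ (X + n * √(a:ℝ)) M) + U af φ (X + n * √(a:ℝ)) M0),
        sq_nonneg ((e n - U af φ (X + n * √(a:ℝ)) M0) - U af φ (X + n * √(a:ℝ)) M0)]
    refine a3.trans ?_
    rw [rm_mul, rm_add, rm_add]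
    have a4 : rm (fun _ => B0 ^ 2) N ≤ B0 ^ 2 := rm_const_le (by positivity) N
    linarith
  -- the size of the coefficients
  obtain ⟨κ, hκ, hκm⟩ : ∃ κ : ℝ, 0 < κ ∧ ∀ s ∈ F, κ ≤ |af (m s)| := by
    rcases F.eq_empty_or_nonempty with rfl | hne
    · exact ⟨1, one_pos, by simp⟩
    · obtain ⟨s0, hs0, hs1⟩ := Finset.exists_min_image F (fun s => |af (m s)|) hne
      exact ⟨|af (m s0)|, abs_pos.mpr (hm s0 hs0).2, hs1⟩
  set τ : ℝ := min (1 / (2 * (1 + C))) (κ / (12 * C)) with hτdef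
  have hτ0 : 0 < τ := by positivity
  have hτ1 : τ * (1 + C) ≤ 1 / 2 := by
    have : τ ≤ 1 / (2 * (1 + C)) := min_le_left _ _
    calc τ * (1 + C) ≤ 1 / (2 * (1 + C)) * (1 + C) := by gcongr
      _ = 1 / 2 := by field_simp
  have hτ2 : 3 * τ * C ≤ κ / 4 := by
    have : τ ≤ κ / (12 * C) := min_le_right _ _
    calc 3 * τ * C ≤ 3 * (κ / (12 * C)) * C := by gcongr
      _ = κ / 4 := by field_simp; ring
  set c0 : ℝ := (τ * κ / 4) ^ F.card * (1 / 2) with hc0def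
  have hc0 : 0 < c0 := by positivity
  refine ⟨τ, c0 / 2, hτ0, by positivity, ?_⟩
  -- approximation
  set δ : ℝ := c0 / (4 * τ) with hδ
  have hδ0 : 0 < δ := by positivity
  obtain ⟨M1, hM1⟩ := hAp (δ ^ 2) (by positivity)
  set M : ℕ := max (max M0 M1) (F.sup m) with hMdef
  have hMM0 : M0 ≤ M := by omega
  have hMm : ∀ s ∈ F, m s ≤ M ^ 2 := by
    intro s hs
    have h1 : m s ≤ F.sup m := Finset.le_sup hs
    have h2 : M ≤ M ^ 2 := Nat.le_self_pow (by norm_num) M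
    omega
  -- lower bound for the model
  have hlow : c0 ≤ ‖mn (ex τ (fun n => U af φ (X + n * √(a:ℝ)) M) * chr (-∑ s ∈ F, (L s:ℝ) * √(s:ℝ)))‖ := by
    have h1F : (1:ℕ) ∉ (F : Set ℕ) := by
      intro h
      exact (hF 1 (by exact_mod_cast h)).2 rfl
    have e : ex τ (fun n => U af φ (X + n * √(a:ℝ)) M) * chr (-∑ s ∈ F, (L s:ℝ) * √(s:ℝ)) =
        (ex τ (UT af φ a X M (F : Set ℕ)) * chr (-∑ s ∈ F, (L s:ℝ) * √(s:ℝ))) * ex τ (UT af φ a X M (F : Set ℕ)ᶜ) := by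
      funext n
      simp only [Pi.mul_apply]
      have : ex τ (fun n : ℕ => U af φ (X + n * √(a:ℝ)) M) n =
          ex τ (UT af φ a X M (F : Set ℕ)) n * ex τ (UT af φ a X M (F : Set ℕ)ᶜ) n := by
        unfold ex
        rw [← Complex.exp_add]
        congr 1
        have h8 : U af φ (X + n * √(a:ℝ)) M = UT af φ a X M (F : Set ℕ) n + UT af φ a X M (F : Set ℕ)ᶜ n := by
          rw [← UT_add disjoint_compl_right, Set.union_compl_self, UT_univ]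
        simp only [h8]
        push_cast; ring
      rw [this]; ring
    have hmem : -∑ s ∈ F, (L s:ℝ) * √(s:ℝ) ∈ HG (F : Set ℕ) := by
      apply (HG _).neg_mem
      apply AddSubgroup.sum_mem
      intro s hs
      exact sqrt_mem_HG (hF s hs).1 (by exact_mod_cast hs) _
    rw [e, mn_mul (Ind_HG disjoint_compl_right h1F) (UC_mul (ex_UC UT_mem τ) (chr_UC hmem)) (ex_UC UT_mem τ),
      mn_prod τ L F hF, norm_mul, norm_prod]
    have hb1 := MB_parts (T := (F : Set ℕ)) h1F ha (hMB M hMM0)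
    have hR : (1:ℝ)/2 ≤ ‖mn (ex τ (UT af φ a X M (F : Set ℕ)ᶜ))‖ := by
      have h2 := mn_ex_close UT_mem hb1.2 hτ0.le
      have h3 : τ * (1 + (3 * (2 + B0 ^ 2) + 1)) ≤ 1 / 2 := hτ1
      have h4 : ‖(1:ℂ)‖ ≤ ‖mn (ex τ (UT af φ a X M (F : Set ℕ)ᶜ))‖ + ‖mn (ex τ (UT af φ a X M (F : Set ℕ)ᶜ)) - 1‖ := by
        calc ‖(1:ℂ)‖ = ‖mn (ex τ (UT af φ a X M (F : Set ℕ)ᶜ)) - (mn (ex τ (UT af φ a X M (F : Set ℕ)ᶜ)) - 1)‖ := by
              congr 1; ring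
          _ ≤ _ := norm_sub_le _ _
      rw [norm_one] at h4
      linarith
    have hP : (τ * κ / 4) ^ F.card ≤ ∏ s ∈ F, ‖mn (ex τ (UT af φ a X M {s}) * chr (-((L s:ℝ) * √(s:ℝ))))‖ := by
      rw [← Finset.prod_const]
      apply Finset.prod_le_prod
      · intro s _; positivity
      · intro s hs
        have hs1 : (1:ℕ) ∉ ({s} : Set ℕ) := by
          simpa using Ne.symm (hF s hs).2
        have hb2 := (MB_parts (T := ({s} : Set ℕ)) hs1 ha (hMB M hMM0)).1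
        have hmem2 : -((L s:ℝ) * √(s:ℝ)) ∈ HG ({s} : Set ℕ) :=
          (HG _).neg_mem (sqrt_mem_HG (hF s hs).1 (Set.mem_singleton s) _)
        have hnint : ¬ ∃ k : ℤ, -((L s:ℝ) * √(s:ℝ)) = k := by
          intro h
          have h5 := int_zero hs1 hmem2 h
          have h6 : (0:ℝ) < √(s:ℝ) := by
            apply Real.sqrt_pos.mpr
            exact_mod_cast Nat.pos_of_ne_zero (hF s hs).1.ne_zero
          have h7 : (L s:ℝ) ≠ 0 := by exact_mod_cast hL s hs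
          apply mul_ne_zero h7 h6.ne'
          linarith
        have h2 := mn_ex_chr UT_mem (τ := τ) hb2 hmem2 hnint
        have h3 := mn_UT_chr (af := af) (φ := φ) (X := X) (hF s hs).1 (hF s hs).2 (hL s hs) ha (hm s hs).1 (hMm s hs)
        have h4 : ‖(τ : ℂ) * Complex.I * mn ((fun n => ((UT af φ a X M {s} n : ℝ) : ℂ)) * chr (-((L s:ℝ) * √(s:ℝ))))‖ =
            τ * (|af (m s)| / 2) := by
          rw [norm_mul, norm_mul, Complex.norm_I, mul_one, Complex.norm_real, Real.norm_eq_abs, abs_of_pos hτ0, h3]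
        have h5 : ‖(τ : ℂ) * Complex.I * mn ((fun n => ((UT af φ a X M {s} n : ℝ) : ℂ)) * chr (-((L s:ℝ) * √(s:ℝ))))‖ ≤
            ‖mn (ex τ (UT af φ a X M {s}) * chr (-((L s:ℝ) * √(s:ℝ))))‖ +
            ‖mn (ex τ (UT af φ a X M {s}) * chr (-((L s:ℝ) * √(s:ℝ)))) -
              (τ : ℂ) * Complex.I * mn ((fun n => ((UT af φ a X M {s} n : ℝ) : ℂ)) * chr (-((L s:ℝ) * √(s:ℝ))))‖ := by
          set A := mn (ex τ (UT af φ a X M {s}) * chr (-((L s:ℝ) * √(s:ℝ))))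
          set B := (τ : ℂ) * Complex.I * mn ((fun n => ((UT af φ a X M {s} n : ℝ) : ℂ)) * chr (-((L s:ℝ) * √(s:ℝ))))
          calc ‖B‖ = ‖A - (A - B)‖ := by congr 1; ring
            _ ≤ _ := norm_sub_le _ _
        rw [h4] at h5
        have h6 : 3 * τ ^ 2 * (3 * (2 + B0 ^ 2) + 1) ≤ τ * (κ / 4) := by
          calc 3 * τ ^ 2 * (3 * (2 + B0 ^ 2) + 1) = τ * (3 * τ * C) := by rw [hCdef]; ring
            _ ≤ τ * (κ / 4) := by gcongr
        have h7 : τ * (κ / 2) ≤ τ * (|af (m s)| / 2) := by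
          have := hκm s hs
          gcongr
        linarith
    calc c0 = (τ * κ / 4) ^ F.card * (1 / 2) := rfl
      _ ≤ _ := mul_le_mul hP hR (by norm_num) (Finset.prod_nonneg fun s _ => norm_nonneg _)
  -- conclusion
  obtain ⟨N1, hN1⟩ := hM1 M (by omega)
  have hmodel : HasMean (ex τ (fun n => U af φ (X + n * √(a:ℝ)) M) * chr (-∑ s ∈ F, (L s:ℝ) * √(s:ℝ)))
      (mn (ex τ (fun n => U af φ (X + n * √(a:ℝ)) M) * chr (-∑ s ∈ F, (L s:ℝ) * √(s:ℝ)))) := by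
    have h1 : (fun n : ℕ => ((U af φ (X + n * √(a:ℝ)) M : ℝ) : ℂ)) ∈ Pool.Agent.H383.AP.TG (HG Set.univ) := by
      have := UT_mem (af := af) (φ := φ) (a := a) (X := X) (M := M) (T := Set.univ)
      simp only [UT_univ] at this
      exact this
    have h2 : -∑ s ∈ F, (L s:ℝ) * √(s:ℝ) ∈ HG Set.univ := by
      apply (HG _).neg_mem
      apply AddSubgroup.sum_mem
      intro s hs
      exact sqrt_mem_HG (hF s hs).1 (Set.mem_univ _) _
    exact UC_hasMean (UC_mul (ex_UC h1 τ) (chr_UC h2))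
  unfold HasMean at hmodel
  have h5 := (hmodel.norm.eventually_const_lt (show c0 * (3/4) < _ by linarith)).exists_forall_of_atTop
  obtain ⟨N2, hN2⟩ := h5
  refine ⟨max N1 N2, fun N hN => ?_⟩
  have b1 := hN1 N (by omega)
  have b2 := hN2 N (by omega)
  have b3 : ‖cm (ex τ e * chr (-∑ s ∈ F, (L s:ℝ) * √(s:ℝ))) N -
      cm (ex τ (fun n => U af φ (X + n * √(a:ℝ)) M) * chr (-∑ s ∈ F, (L s:ℝ) * √(s:ℝ))) N‖ ≤ c0 / 4 := by
    refine (norm_cm_sub_le _ _ N).trans ?_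
    have h6 : rm (fun n => ‖(ex τ e * chr (-∑ s ∈ F, (L s:ℝ) * √(s:ℝ))) n -
        (ex τ (fun n => U af φ (X + n * √(a:ℝ)) M) * chr (-∑ s ∈ F, (L s:ℝ) * √(s:ℝ))) n‖) N ≤
        rm (fun n => (τ / 2) * (δ + δ⁻¹ * (e n - U af φ (X + n * √(a:ℝ)) M) ^ 2)) N := by
      apply rm_mono
      intro n
      simp only [Pi.mul_apply]
      rw [← sub_mul, norm_mul, norm_chr, mul_one]
      have h7 : ex τ e n - ex τ (fun n : ℕ => U af φ (X + n * √(a:ℝ)) M) n =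
          ex τ (fun n : ℕ => U af φ (X + n * √(a:ℝ)) M) n *
            (ex τ (fun n : ℕ => e n - U af φ (X + n * √(a:ℝ)) M) n - 1) := by
        rw [mul_sub, mul_one]
        congr 1
        unfold ex
        rw [← Complex.exp_add]
        congr 1
        push_cast; ring
      rw [h7, norm_mul, norm_ex, one_mul]
      refine (ex_sub_one _ _ n).trans ?_
      rw [abs_mul, abs_of_pos hτ0]
      set x := |e n - U af φ (X + n * √(a:ℝ)) M| with hx
      have h8 : (e n - U af φ (X + n * √(a:ℝ)) M) ^ 2 = x ^ 2 := (sq_abs _).symm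
      rw [h8]
      have h9 : 2 * x ≤ δ + δ⁻¹ * x ^ 2 := by
        have h10 : δ + δ⁻¹ * x ^ 2 - 2 * x = δ⁻¹ * (δ - x) ^ 2 := by field_simp; ring
        have h11 : 0 ≤ δ⁻¹ * (δ - x) ^ 2 := by positivity
        linarith
      nlinarith
    refine h6.trans ?_
    rw [rm_mul, rm_add, rm_mul]
    have h12 : rm (fun _ => δ) N ≤ δ := rm_const_le hδ0.le N
    have h13 : δ⁻¹ * rm (fun n => (e n - U af φ (X + n * √(a:ℝ)) M) ^ 2) N ≤ δ⁻¹ * δ ^ 2 := by
      apply mul_le_mul_of_nonneg_left b1 (by positivity)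
    have h14 : δ⁻¹ * δ ^ 2 = δ := by field_simp
    have h15 : (τ / 2) * (δ + δ) = c0 / 4 := by rw [hδ]; field_simp; norm_num
    rw [← h15]
    apply mul_le_mul_of_nonneg_left _ (by positivity)
    linarith
  have b4 : ‖cm (ex τ (fun n => U af φ (X + n * √(a:ℝ)) M) * chr (-∑ s ∈ F, (L s:ℝ) * √(s:ℝ))) N‖ ≤
      ‖cm (ex τ e * chr (-∑ s ∈ F, (L s:ℝ) * √(s:ℝ))) N‖ +
      ‖cm (ex τ e * chr (-∑ s ∈ F, (L s:ℝ) * √(s:ℝ))) N -
      cm (ex τ (fun n => U af φ (X + n * √(a:ℝ)) M) * chr (-∑ s ∈ F, (L s:ℝ) * √(s:ℝ))) N‖ := by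
    set A := cm (ex τ e * chr (-∑ s ∈ F, (L s:ℝ) * √(s:ℝ))) N
    set B := cm (ex τ (fun n => U af φ (X + n * √(a:ℝ)) M) * chr (-∑ s ∈ F, (L s:ℝ) * √(s:ℝ))) N
    calc ‖B‖ = ‖A - (A - B)‖ := by congr 1; ring
      _ ≤ _ := norm_sub_le _ _
  linarith

end Pool.Agent.Q209.GC
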