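import Mathlib
import Pool.Agent.Q209.GC.Sep2

/-!
# Averages over all shifts of a Beatty sequence
-/

set_option autoImplicit false

open Filter Topology MeasureTheory
open Pool.Agent.H383.AP

namespace Pool.Agent.Q209.GC

/-- the exponential with frequency `-θ` at a real number -/
noncomputable def er (θ x : ℝ) : ℂ := Complex.exp ((-(2 * Real.pi * θ) * Complex.I) * (x : ℂ))

lemma norm_er (θ x : ℝ) : ‖er θ x‖ = 1 := by
  unfold er
  rw [show (-(2 * Real.pi * θ) * Complex.I) * (x : ℂ) = ((-(2 * Real.pi * θ * x) : ℝ) : ℂ) * Complex.I by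
    push_cast; ring]
  exact Complex.norm_exp_ofReal_mul_I _

lemma er_add (θ x y : ℝ) : er θ (x + y) = er θ x * er θ y := by
  unfold er
  rw [← Complex.exp_add]
  congr 1
  push_cast; ring

lemma er_nat (θ : ℝ) (n : ℕ) : er θ n = chr (-θ) n := by
  unfold er chr
  congr 1
  push_cast; ring

lemma er_cont (θ : ℝ) : Continuous (er θ) := by
  unfold er
  fun_prop

lemma er_period {α : ℝ} (hα : α ≠ 0) (h m : ℕ) : er (h / α) (α * m) = 1 := by
  unfold er
  rw [Complex.exp_eq_one_iff]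
  refine ⟨-(h * m), ?_⟩
  have hα' : (α : ℂ) ≠ 0 := by exact_mod_cast hα
  push_cast
  field_simp

lemma er_int (θ : ℝ) (hθ : θ ≠ 0) (a b : ℝ) : ∫ x in a..b, er θ x =
    (er θ b - er θ a) / (-(2 * Real.pi * θ) * Complex.I) := by
  unfold er
  rw [integral_exp_mul_complex]
  have h1 : (θ : ℂ) ≠ 0 := by exact_mod_cast hθ
  have h2 : (Real.pi : ℂ) ≠ 0 := by exact_mod_cast Real.pi_ne_zero
  apply mul_ne_zero _ Complex.I_ne_zero
  rw [neg_ne_zero]
  exact mul_ne_zero (mul_ne_zero two_ne_zero h2) h1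

lemma kappa_ne {θ : ℝ} (hθ : ¬ ∃ k : ℤ, θ = k) : ∫ x in (0:ℝ)..1, er θ x ≠ 0 := by
  have hθ0 : θ ≠ 0 := fun h => hθ ⟨0, by rw [h]; simp⟩
  rw [er_int θ hθ0]
  have h1 : (θ : ℂ) ≠ 0 := by exact_mod_cast hθ0
  have h2 : (Real.pi : ℂ) ≠ 0 := by exact_mod_cast Real.pi_ne_zero
  apply div_ne_zero
  · rw [sub_ne_zero]
    intro h
    apply hθ
    have h0 : er θ 0 = 1 := by unfold er; simp
    rw [h0] at h
    unfold er at h
    rw [Complex.exp_eq_one_iff] at h
    obtain ⟨k, hk⟩ := h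
    refine ⟨-k, ?_⟩
    have h3 : (-(θ:ℂ)) * (2 * Real.pi * Complex.I) = (k:ℂ) * (2 * Real.pi * Complex.I) := by
      rw [← hk]; push_cast; ring
    have h4 : (-(θ:ℂ)) = (k:ℂ) := mul_right_cancel₀ (mul_ne_zero (mul_ne_zero two_ne_zero h2) Complex.I_ne_zero) h3
    have h5 : (-θ : ℝ) = (k:ℝ) := by exact_mod_cast h4
    push_cast
    linarith
  · apply mul_ne_zero _ Complex.I_ne_zero
    rw [neg_ne_zero]
    exact mul_ne_zero (mul_ne_zero two_ne_zero h2) h1

section

variable {G : ℕ → ℂ} (hG : ∀ n, ‖G n‖ ≤ 1) (θ : ℝ)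

/-- the step function -/
noncomputable def st (G : ℕ → ℂ) (θ x : ℝ) : ℂ := G ⌊x⌋₊ * er θ x

lemma st_meas : Measurable (st G θ) := by
  unfold st
  apply Measurable.mul _ (er_cont θ).measurable
  exact (measurable_from_nat (f := G)).comp Nat.measurable_floor

include hG in
lemma st_le (x : ℝ) : ‖st G θ x‖ ≤ 1 := by
  unfold st
  rw [norm_mul, norm_er, mul_one]
  exact hG _

include hG in
lemma st_int (a b : ℝ) : IntervalIntegrable (st G θ) volume a b := by
  apply (intervalIntegrable_const (c := (1:ℝ))).mono_fun (st_meas θ).aestronglyMeasurable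
  exact Eventually.of_forall fun x => by
    rw [norm_one]; exact st_le hG θ x

include hG in
lemma st_unit (n : ℕ) : ∫ x in (n:ℝ)..((n + 1 : ℕ) : ℝ), st G θ x = G n * chr (-θ) n * ∫ x in (0:ℝ)..1, er θ x := by
  have h1 := intervalIntegral.integral_comp_add_left (a := (0:ℝ)) (b := 1) (fun x => st G θ x) (n:ℝ)
  rw [add_zero] at h1
  push_cast
  rw [← h1, ← intervalIntegral.integral_const_mul]
  apply intervalIntegral.integral_congr_ae
  have h2 : ∀ᵐ x : ℝ, x ≠ 1 := by
    rw [ae_iff]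
    simp
  filter_upwards [h2] with x hx hx2
  rw [Set.uIoc_of_le zero_le_one] at hx2
  have h3 : x < 1 := lt_of_le_of_ne hx2.2 hx
  unfold st
  have h4 : ⌊(n:ℝ) + x⌋₊ = n := by
    rw [Nat.floor_eq_iff (by linarith [hx2.1, Nat.cast_nonneg (α := ℝ) n])]
    exact ⟨by linarith [hx2.1], by linarith⟩
  rw [h4, er_add, er_nat]
  ring

include hG in
lemma st_sum (N : ℕ) : ∫ x in (0:ℝ)..N, st G θ x =
    (∑ n ∈ Finset.range N, G n * chr (-θ) n) * ∫ x in (0:ℝ)..1, er θ x := by
  have h1 := intervalIntegral.sum_integral_adjacent_intervals (f := st G θ) (μ := volume) (a := fun k : ℕ => (k:ℝ)) (n := N)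
    (fun k _ => st_int hG θ _ _)
  rw [Nat.cast_zero] at h1
  rw [← h1, Finset.sum_mul]
  refine Finset.sum_congr rfl fun n _ => ?_
  exact st_unit hG θ n

end

/-- averages over all shifts -/
theorem shift_avg {G : ℕ → ℂ} (hG : ∀ n, ‖G n‖ ≤ 1) {α : ℝ} (hα : 1 < α) {h : ℕ} (hh : 0 < h) {I : ℂ}
    (hI : ∀ β : ℝ, 0 ≤ β → β < α →
      Tendsto (fun M : ℕ => (∑ m ∈ Finset.Icc 1 M, G ⌊α * m + β⌋₊) / M) atTop (𝓝 I))
    (hk : ¬ ∃ k : ℤ, (h : ℝ) / α = k) :
    Tendsto (fun M : ℕ => cm (G * chr (-((h : ℝ) / α))) ⌊α * (M + 1)⌋₊) atTop (𝓝 0) := by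
  set θ : ℝ := (h : ℝ) / α with hθ
  have hα0 : (0:ℝ) < α := by linarith
  have hθ0 : θ ≠ 0 := by
    rw [hθ]
    have : (0:ℝ) < h := by exact_mod_cast hh
    positivity
  set κ : ℂ := ∫ x in (0:ℝ)..1, er θ x with hκ
  have hκ0 : κ ≠ 0 := kappa_ne hk
  set Φ : ℕ → ℝ → ℂ := fun M β => er θ β * ((∑ m ∈ Finset.Icc 1 M, G ⌊α * m + β⌋₊) / M) with hΦ
  have hΦm : ∀ M, Measurable (Φ M) := by
    intro M
    simp only [hΦ]
    apply Measurable.mul (er_cont θ).measurable
    apply Measurable.div_const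
    apply Finset.measurable_sum
    intro m _
    exact (measurable_from_nat (f := G)).comp (Nat.measurable_floor.comp (by fun_prop))
  have hsum_le : ∀ (M : ℕ) (β : ℝ), ‖∑ m ∈ Finset.Icc 1 M, G ⌊α * m + β⌋₊‖ ≤ M := by
    intro M β
    refine (norm_sum_le _ _).trans ?_
    calc ∑ m ∈ Finset.Icc 1 M, ‖G ⌊α * m + β⌋₊‖ ≤ ∑ m ∈ Finset.Icc 1 M, (1:ℝ) :=
          Finset.sum_le_sum fun m _ => hG _
      _ = M := by simp
  have hΦ1 : ∀ M β, ‖Φ M β‖ ≤ 1 := by
    intro M β
    simp only [hΦ]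
    rw [norm_mul, norm_er, one_mul, norm_div, Complex.norm_natCast]
    exact div_le_one_of_le₀ (hsum_le M β) (Nat.cast_nonneg M)
  have hlim : Tendsto (fun M : ℕ => ∫ β in (0:ℝ)..α, Φ M β) atTop (𝓝 (∫ β in (0:ℝ)..α, er θ β * I)) := by
    apply intervalIntegral.tendsto_integral_filter_of_dominated_convergence (bound := fun _ => (1:ℝ))
    · exact Eventually.of_forall fun M => (hΦm M).aestronglyMeasurable
    · exact Eventually.of_forall fun M => Eventually.of_forall fun β _ => hΦ1 M β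
    · exact intervalIntegrable_const
    · have h2 : ∀ᵐ x : ℝ, x ≠ α := by
        rw [ae_iff]
        simp
      filter_upwards [h2] with β hβ hβ2
      rw [Set.uIoc_of_le hα0.le] at hβ2
      exact (hI β hβ2.1.le (lt_of_le_of_ne hβ2.2 hβ)).const_mul _
  have hzero : ∫ β in (0:ℝ)..α, er θ β * I = 0 := by
    rw [intervalIntegral.integral_mul_const, er_int θ hθ0]
    have h1 : er θ α = 1 := by
      have := er_period hα0.ne' h 1
      rw [Nat.cast_one, mul_one] at this
      exact this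
    have h2 : er θ 0 = 1 := by unfold er; simp
    rw [h1, h2]; simp
  rw [hzero] at hlim
  -- the integral as an integral over an interval
  have hint : ∀ M : ℕ, 1 ≤ M → ∫ β in (0:ℝ)..α, Φ M β = (∫ x in α..(α * (M + 1)), st G θ x) / M := by
    intro M hM
    have e1 : ∀ β, Φ M β = (∑ m ∈ Finset.Icc 1 M, st G θ (α * m + β)) / M := by
      intro β
      simp only [hΦ]
      rw [mul_div_assoc', Finset.mul_sum]
      congr 1
      refine Finset.sum_congr rfl fun m _ => ?_
      unfold st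
      rw [er_add, er_period hα0.ne', one_mul, mul_comm]
    simp only [e1]
    rw [intervalIntegral.integral_div, intervalIntegral.integral_finset_sum]
    · congr 1
      have h1 := intervalIntegral.sum_integral_adjacent_intervals (f := st G θ) (μ := volume)
        (a := fun k : ℕ => α * (k + 1)) (n := M) (fun k _ => st_int hG θ _ _)
      rw [Nat.cast_zero, zero_add, mul_one] at h1
      rw [← h1, Pool.Agent.H425R3.JL.sum_Icc_range]
      refine Finset.sum_congr rfl fun m _ => ?_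
      rw [intervalIntegral.integral_comp_add_left (fun x => st G θ x)]
      congr 1
      · push_cast; ring
      · push_cast; ring
    · intro m _
      have := (st_int hG θ (α * m + 0) (α * m + α)).comp_add_left (α * m)
      refine (intervalIntegrable_const (c := (1:ℝ))).mono_fun ?_ ?_
      · exact ((st_meas θ).comp (by fun_prop)).aestronglyMeasurable
      · exact Eventually.of_forall fun x => by
          rw [norm_one]; exact st_le hG θ _
  -- comparison
  have hbound : ∀ M : ℕ, 1 ≤ M → ‖cm (G * chr (-θ)) ⌊α * (M + 1)⌋₊‖ ≤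
      (‖∫ β in (0:ℝ)..α, Φ M β‖ + (α + 1) / M) / ‖κ‖ := by
    intro M hM
    have hMpos : (0:ℝ) < M := by exact_mod_cast hM
    set N : ℕ := ⌊α * (M + 1)⌋₊ with hN
    have hNM : (M:ℝ) ≤ N := by
      have : M ≤ N := by
        rw [hN]
        apply Nat.le_floor
        nlinarith
      exact_mod_cast this
    have hN1 : (N:ℝ) ≤ α * (M + 1) := Nat.floor_le (by positivity)
    have hN2 : α * (M + 1) < N + 1 := Nat.lt_floor_add_one _
    have h1 : κ * ∑ n ∈ Finset.range N, G n * chr (-θ) n = ∫ x in (0:ℝ)..N, st G θ x := by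
      rw [st_sum hG, mul_comm]
    have h2 : ∫ x in (0:ℝ)..N, st G θ x = (∫ x in (0:ℝ)..α, st G θ x) + (∫ x in α..(α * (M + 1)), st G θ x) -
        ∫ x in (N:ℝ)..(α * (M + 1)), st G θ x := by
      have i1 := intervalIntegral.integral_add_adjacent_intervals (st_int hG θ 0 α) (st_int hG θ α (α * (M + 1)))
      have i2 := intervalIntegral.integral_add_adjacent_intervals (st_int hG θ 0 N) (st_int hG θ N (α * (M + 1)))
      rw [i1, ← i2]; ring
    have h3 : ‖∫ x in (0:ℝ)..α, st G θ x‖ ≤ 1 * |α - 0| :=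
      intervalIntegral.norm_integral_le_of_norm_le_const fun x _ => st_le hG θ x
    have h4 : ‖∫ x in (N:ℝ)..(α * (M + 1)), st G θ x‖ ≤ 1 * |α * (M + 1) - N| :=
      intervalIntegral.norm_integral_le_of_norm_le_const fun x _ => st_le hG θ x
    rw [sub_zero, one_mul, abs_of_pos hα0] at h3
    rw [one_mul, abs_of_nonneg (by linarith)] at h4
    have h5 : ‖∫ x in α..(α * (M + 1)), st G θ x‖ = M * ‖∫ β in (0:ℝ)..α, Φ M β‖ := by
      rw [hint M hM, norm_div, Complex.norm_natCast, mul_div_cancel₀ _ hMpos.ne']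
    have h6 : ‖κ‖ * ‖∑ n ∈ Finset.range N, G n * chr (-θ) n‖ ≤ M * ‖∫ β in (0:ℝ)..α, Φ M β‖ + (α + 1) := by
      rw [← norm_mul, h1, h2]
      refine (norm_sub_le _ _).trans ?_
      refine (add_le_add (norm_add_le _ _) le_rfl).trans ?_
      rw [h5]
      linarith
    unfold cm
    simp only [Pi.mul_apply]
    rw [norm_div, Complex.norm_natCast]
    have hκp : 0 < ‖κ‖ := norm_pos_iff.mpr hκ0
    rw [div_le_div_iff₀ (by linarith) hκp]
    calc ‖∑ n ∈ Finset.range N, G n * chr (-θ) n‖ * ‖κ‖ ≤ M * ‖∫ β in (0:ℝ)..α, Φ M β‖ + (α + 1) := by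
          rw [mul_comm]; exact h6
      _ = (‖∫ β in (0:ℝ)..α, Φ M β‖ + (α + 1) / M) * M := by field_simp
      _ ≤ (‖∫ β in (0:ℝ)..α, Φ M β‖ + (α + 1) / M) * N := by gcongr
  apply squeeze_zero_norm' (a := fun M : ℕ => (‖∫ β in (0:ℝ)..α, Φ M β‖ + (α + 1) / M) / ‖κ‖)
  · filter_upwards [eventually_ge_atTop 1] with M hM
    exact hbound M hM
  · have h1 : Tendsto (fun M : ℕ => (α + 1) / (M:ℝ)) atTop (𝓝 0) := tendsto_const_div_atTop_nhds_zero_nat _
    have h2 := (hlim.norm.add h1).div_const ‖κ‖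
    simpa using h2

end Pool.Agent.Q209.GC
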