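import Mathlib
import Pool.Agent.Q209.GC.Sep3

/-!
# Resonant Beatty sequences
-/

set_option autoImplicit false

open Filter Topology MeasureTheory
open Pool.Agent.H383.AP Pool.Agent.H383.Gen Pool.Agent.H383.Gauss Pool.Agent.H383.Circ
open Pool.Agent.H425R3.JL

namespace Pool.Agent.Q209.GC

lemma S2_mul_sq {m t : ℕ} (h : S2 m) : S2 (m * t ^ 2) := by
  obtain ⟨u, v, rfl⟩ := h
  exact ⟨u * t, v * t, by ring⟩

/-- a multiple of an element of the group, decomposed -/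
lemma res_repr {a : ℕ} (ha : 0 < a) {θ : ℝ} (h : θ ∈ CG (fun _ : Fin 1 => a)) :
    ∃ (k : ℤ) (F : Finset ℕ) (L : ℕ → ℤ) (m : ℕ → ℕ), (∀ s ∈ F, Squarefree s ∧ s ≠ 1) ∧ (∀ s ∈ F, L s ≠ 0) ∧
      (∀ s ∈ F, a * m s = s * (L s).natAbs ^ 2 ∧ ag (m s) ≠ 0) ∧
      (a:ℝ) * θ = k + ∑ s ∈ F, (L s:ℝ) * √(s:ℝ) := by
  classical
  obtain ⟨L, hL, hθ⟩ := CG_repr (a := fun _ : Fin 1 => a) (fun _ => ha) h
  refine ⟨a * L 1, L.support.erase 1, fun s => a * L s, fun s => s * a * (L s).natAbs ^ 2, ?_, ?_, ?_, ?_⟩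
  · intro s hs
    rw [Finset.mem_erase] at hs
    exact ⟨(hL s hs.2).1, hs.1⟩
  · intro s hs
    rw [Finset.mem_erase] at hs
    have h1 : L s ≠ 0 := Finsupp.mem_support_iff.mp hs.2
    exact mul_ne_zero (by exact_mod_cast ha.ne') h1
  · intro s hs
    rw [Finset.mem_erase] at hs
    have h1 : L s ≠ 0 := Finsupp.mem_support_iff.mp hs.2
    have h2 := hL s hs.2
    have hs0 : 0 < s := Nat.pos_of_ne_zero h2.1.ne_zero
    have h3 : 0 < (L s).natAbs := Int.natAbs_pos.mpr h1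
    constructor
    · rw [Int.natAbs_mul, Int.natAbs_natCast]; ring
    · show ag (s * a * (L s).natAbs ^ 2) ≠ 0
      rw [ag_ne_iff (Nat.succ_le_of_lt (by positivity))]
      rcases h2.2 with h4 | ⟨_, h4⟩
      · exact absurd h4 hs.1
      · rw [mul_comm s a]
        exact S2_mul_sq h4
  · rw [hθ]
    unfold Finsupp.sum
    by_cases h1 : 1 ∈ L.support
    · rw [← Finset.add_sum_erase _ _ h1, mul_add, Finset.mul_sum]
      congr 1
      · push_cast; rw [Real.sqrt_one]; ring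
      · refine Finset.sum_congr rfl fun s _ => ?_
        push_cast; ring
    · rw [Finset.erase_eq_of_notMem h1, Finsupp.notMem_support_iff.mp h1, Finset.mul_sum]
      simp only [mul_zero, Int.cast_zero, zero_add]
      refine Finset.sum_congr rfl fun s _ => ?_
      push_cast; ring

lemma chr_int (k : ℤ) : chr (k:ℝ) = 1 := by
  funext n
  simp only [chr, Pi.one_apply]
  rw [Complex.exp_eq_one_iff]
  refine ⟨n * k, ?_⟩
  push_cast; ring

/-- along the Beatty sequences of a resonant slope the averages cannot all agree -/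
theorem sep_main {a : ℕ} (ha : 0 < a) {b c : ℝ} (hP : ∀ n : ℕ, 1 ≤ n → 0 < (a:ℝ) * (n:ℝ)^2 + b * n + c)
    {α : ℝ} (hα : 1 < α) (hirr : Irrational α) {h : ℕ} (hh : 0 < h) (hres : (h:ℝ) / α ∈ CG (fun _ : Fin 1 => a)) :
    ∃ τ : ℝ, ¬ ∃ I : ℂ, ∀ β : ℝ, 0 ≤ β → β < α →
      Tendsto (fun M : ℕ => (∑ m ∈ Finset.Icc 1 M,
        ex τ (fun n : ℕ => Ec ((a:ℝ) * (n:ℝ)^2 + b * n + c)) ⌊α * m + β⌋₊) / M) atTop (𝓝 I) := by
  obtain ⟨k, F, L, m, h1, h2, h3, h4⟩ := res_repr ha hres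
  set b' : ℝ := 2 * a + b with hb'
  set c' : ℝ := a + b + c with hc'
  have hsh : ∀ n : ℕ, (a:ℝ) * (n:ℝ)^2 + b' * n + c' = (a:ℝ) * ((n+1 : ℕ):ℝ)^2 + b * ((n+1 : ℕ):ℝ) + c := by
    intro n; simp only [hb', hc']; push_cast; ring
  have hP' : ∀ n : ℕ, 0 < (a:ℝ) * (n:ℝ)^2 + b' * n + c' := by
    intro n; rw [hsh]; exact hP (n+1) (by omega)
  have hAp := circ_data.ap a b' c' ha hP'
  obtain ⟨τ, c0, hτ, hc0, N0, hN0⟩ := sep hAp ha F h1 L h2 m h3
  refine ⟨τ, ?_⟩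
  rintro ⟨I, hI⟩
  set G : ℕ → ℂ := ex τ (fun n : ℕ => Ec ((a:ℝ) * (n:ℝ)^2 + b * n + c)) with hG
  have hG1 : ∀ n, ‖G n‖ ≤ 1 := fun n => (norm_ex _ _ n).le
  have hk : ¬ ∃ k : ℤ, ((a * h : ℕ) : ℝ) / α = k := by
    rintro ⟨j, hj⟩
    apply hirr
    have hα0 : α ≠ 0 := by linarith
    have hah : ((a * h : ℕ) : ℝ) ≠ 0 := by
      have : 0 < a * h := by positivity
      exact_mod_cast this.ne'
    have hj0 : (j:ℝ) ≠ 0 := by
      rw [← hj]
      exact div_ne_zero hah hα0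
    refine ⟨(a * h : ℕ) / (j : ℚ), ?_⟩
    rw [Rat.cast_div, Rat.cast_natCast, Rat.cast_intCast, ← hj]
    field_simp
  have hlim := shift_avg hG1 hα (h := a * h) (by positivity) hI hk
  -- the frequency
  have hfreq : chr (-(((a * h : ℕ) : ℝ) / α)) = chr (-∑ s ∈ F, (L s:ℝ) * √(s:ℝ)) := by
    have e : -(((a * h : ℕ) : ℝ) / α) = ((-k : ℤ) : ℝ) + (-∑ s ∈ F, (L s:ℝ) * √(s:ℝ)) := by
      have : ((a * h : ℕ) : ℝ) / α = (a:ℝ) * ((h:ℝ) / α) := by push_cast; ring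
      rw [this, h4]; push_cast; ring
    rw [e, ← chr_mul, chr_int, one_mul]
  rw [hfreq] at hlim
  set ω : ℝ := -∑ s ∈ F, (L s:ℝ) * √(s:ℝ) with hω
  set e : ℕ → ℝ := fun n => Ec ((a:ℝ) * (n:ℝ)^2 + b' * n + c') with he
  -- the shift
  have hshift : ∀ N : ℕ, ∑ n ∈ Finset.range (N + 1), G n * chr ω n =
      G 0 + chr ω 1 * ∑ n ∈ Finset.range N, ex τ e n * chr ω n := by
    intro N
    rw [Finset.sum_range_succ', add_comm, Finset.mul_sum]
    congr 1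
    · have : chr ω 0 = 1 := by unfold chr; simp
      rw [this, mul_one]
    · refine Finset.sum_congr rfl fun n _ => ?_
      have e1 : G (n + 1) = ex τ e n := by
        simp only [hG, ex, he]
        rw [hsh]
      have e2 : chr ω (n + 1) = chr ω 1 * chr ω n := by
        unfold chr
        rw [← Complex.exp_add]
        congr 1
        push_cast; ring
      rw [e1, e2]; ring
  have hcmp : ∀ N : ℕ, N0 ≤ N → 1 ≤ N → c0 / 2 - 1 / (N + 1) ≤ ‖cm (G * chr ω) (N + 1)‖ := by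
    intro N hN hN1
    have h5 := hN0 N hN
    have hNpos : (0:ℝ) < N := by exact_mod_cast hN1
    unfold cm at h5 ⊢
    simp only [Pi.mul_apply] at h5 ⊢
    rw [norm_div, Complex.norm_natCast, le_div_iff₀ hNpos] at h5
    rw [hshift, norm_div, Complex.norm_natCast, le_div_iff₀ (by positivity)]
    have h6 : ‖chr ω 1 * ∑ n ∈ Finset.range N, ex τ e n * chr ω n‖ ≤
        ‖G 0 + chr ω 1 * ∑ n ∈ Finset.range N, ex τ e n * chr ω n‖ + ‖G 0‖ := by
      calc _ = ‖(G 0 + chr ω 1 * ∑ n ∈ Finset.range N, ex τ e n * chr ω n) - G 0‖ := by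
            congr 1; ring
        _ ≤ _ := norm_sub_le _ _
    rw [norm_mul, norm_chr, one_mul] at h6
    have h7 := hG1 0
    have h8 : (c0 / 2 - 1 / ((N:ℝ) + 1)) * ((N + 1 : ℕ) : ℝ) = c0 / 2 * (N + 1) - 1 := by
      push_cast
      field_simp
    rw [h8]
    have h9 : (1:ℝ) ≤ N := by exact_mod_cast hN1
    nlinarith
  -- contradiction
  have hNM : Tendsto (fun M : ℕ => ⌊α * ((M:ℝ) + 1)⌋₊) atTop atTop := by
    apply tendsto_nat_floor_atTop.comp
    apply Tendsto.const_mul_atTop (by linarith)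
    exact tendsto_atTop_add_const_right _ _ tendsto_natCast_atTop_atTop
  have h10 := hlim.norm
  rw [norm_zero] at h10
  have ev1 := h10.eventually (gt_mem_nhds (show (0:ℝ) < c0 / 4 by positivity))
  have ev2 := hNM.eventually (eventually_ge_atTop (max (N0 + 2) (⌈4 / c0⌉₊ + 3)))
  obtain ⟨M, hM1, hM2⟩ := (ev1.and ev2).exists
  set N := ⌊α * ((M:ℝ) + 1)⌋₊ with hN
  obtain ⟨N', hN'⟩ : ∃ N', N = N' + 1 := ⟨N - 1, by omega⟩
  rw [hN'] at hM1 hM2
  have h11 := hcmp N' (by omega) (by omega)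
  have h12 : 1 / ((N':ℝ) + 1) ≤ c0 / 4 := by
    rw [div_le_iff₀ (by positivity)]
    have h13 : (⌈4 / c0⌉₊ : ℝ) ≤ N' := by exact_mod_cast (by omega : ⌈4 / c0⌉₊ ≤ N')
    have h14 : 4 / c0 ≤ N' := (Nat.le_ceil _).trans h13
    rw [div_le_iff₀ hc0] at h14
    nlinarith
  linarith

end Pool.Agent.Q209.GC
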