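import Mathlib
import Pool.Agent.Q209.GC.Sep4

/-!
# The circle problem along Beatty sequences
-/

set_option autoImplicit false

open Filter Topology MeasureTheory
open Pool.Agent.H383.AP Pool.Agent.H383.Gen Pool.Agent.H383.Gauss Pool.Agent.H383.Circ
open Pool.Agent.H425R3.JL

namespace Pool.Agent.Q209.GC

lemma WC_seq {Γ : AddSubgroup ℝ} {w : ℕ → ℕ → ℂ} (h1 : ∀ N n, ‖w N n‖ ≤ 1)
    (h2 : ∀ θ ∈ Γ, (¬ ∃ k : ℤ, θ = k) → Tendsto (fun N : ℕ =>
      (∑ n ∈ Finset.Icc 1 N, w N n * Complex.exp (2 * Real.pi * θ * n * Complex.I)) / N) atTop (𝓝 0)) :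
    WC Γ (fun N => {w N}) := by
  refine ⟨fun N v hv => ?_, fun θ hΓ hθ ε hε => ?_⟩
  · rw [Set.mem_singleton_iff] at hv
    subst hv
    exact h1 N
  · have h3 := h2 θ hΓ hθ
    rw [Metric.tendsto_atTop] at h3
    obtain ⟨N0, hN0⟩ := h3 ε hε
    refine ⟨max N0 1, fun N hN v hv => ?_⟩
    rw [Set.mem_singleton_iff] at hv
    subst hv
    have hNpos : (0:ℝ) < N := by exact_mod_cast (by omega : 0 < N)
    have h4 := (hN0 N (by omega)).le
    rw [dist_zero_right, norm_div, Complex.norm_natCast, div_le_iff₀ hNpos] at h4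
    refine le_trans (le_of_eq ?_) h4
    congr 1
    apply Finset.sum_congr rfl
    intro n _
    unfold chr
    congr 2
    push_cast; ring

/-- a quadratic slope with a resonance -/
lemma res_of_quad {a d : ℕ} (ha : 0 < a) (hS : S2 (a * d)) {p q : ℚ} :
    ∃ h : ℕ, 0 < h ∧ (h:ℝ) * (p + q * √(d:ℝ)) ∈ CG (fun _ : Fin 1 => a) := by
  obtain ⟨u, v, huv⟩ := hS
  set Γ := CG (fun _ : Fin 1 => a) with hΓ
  have h1 : (1:ℝ) ∈ Γ := AddSubgroup.subset_closure (Or.inl rfl)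
  have h2 : (a:ℝ) * √(d:ℝ) ∈ Γ := by
    rcases Nat.eq_zero_or_pos (u ^ 2 + v ^ 2) with h0 | hpos
    · rw [h0] at huv
      have hd : d = 0 := by
        rcases Nat.mul_eq_zero.mp huv with h | h
        · omega
        · exact h
      rw [hd]; simp
    · apply AddSubgroup.subset_closure
      refine Or.inr ⟨0, u, v, hpos, ?_⟩
      rw [← huv, show a * (a * d) = a ^ 2 * d by ring]
      push_cast
      rw [Real.sqrt_mul (by positivity), Real.sqrt_sq (Nat.cast_nonneg _)]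
  refine ⟨a * p.den * q.den, by have := p.den_pos; have := q.den_pos; positivity, ?_⟩
  have hp : ((p:ℚ):ℝ) * p.den = p.num := by
    have := Rat.mul_den_eq_num p
    exact_mod_cast this
  have hq : ((q:ℚ):ℝ) * q.den = q.num := by
    have := Rat.mul_den_eq_num q
    exact_mod_cast this
  have e : ((a * p.den * q.den : ℕ) : ℝ) * (p + q * √(d:ℝ)) =
      (a * p.num * q.den : ℤ) • (1:ℝ) + (q.num * p.den : ℤ) • ((a:ℝ) * √(d:ℝ)) := by
    rw [zsmul_eq_mul, zsmul_eq_mul]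
    push_cast
    rw [← hp, ← hq]
    ring
  rw [e]
  exact Γ.add_mem (Γ.zsmul_mem h1 _) (Γ.zsmul_mem h2 _)

/-- the circle problem along Beatty sequences -/
theorem main {k : ℕ} (a : Fin k → ℕ) (b c : Fin k → ℝ) (ha : ∀ i, 0 < a i)
    (hP : ∀ i, ∀ n : ℕ, 1 ≤ n → 0 < (a i:ℝ) * (n:ℝ)^2 + b i * n + c i) :
    ∃ μ : ProbabilityMeasure (Fin k → ℝ),
      Integrable (fun x : Fin k → ℝ => ∑ i, x i ^ 2) (μ : Measure (Fin k → ℝ)) ∧
      (∀ f : (Fin k → ℝ) → ℝ, Continuous f → (∃ C : ℝ, ∀ x, |f x| ≤ C * (1 + ∑ i, x i ^ 2)) →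
          Tendsto (fun N : ℕ => (∑ n ∈ Finset.Icc 1 N,
            f (fun i => Ec ((a i:ℝ) * (n:ℝ)^2 + b i * n + c i))) / N)
            atTop (𝓝 (∫ x, f x ∂(μ : Measure (Fin k → ℝ))))) ∧
      (∀ α : ℝ, 1 < α → Irrational α → ∃ ν : ℝ → ProbabilityMeasure (Fin k → ℝ),
        (∀ β : ℝ, 0 ≤ β → Integrable (fun x : Fin k → ℝ => ∑ i, x i ^ 2) (ν β : Measure (Fin k → ℝ)) ∧
          ∀ f : (Fin k → ℝ) → ℝ, Continuous f → (∃ C : ℝ, ∀ x, |f x| ≤ C * (1 + ∑ i, x i ^ 2)) →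
            Tendsto (fun M : ℕ => (∑ m ∈ Finset.Icc 1 M,
              f (fun i => Ec ((a i:ℝ) * ((⌊α * m + β⌋₊ : ℕ) : ℝ)^2 + b i * (⌊α * m + β⌋₊ : ℕ) + c i))) / M)
              atTop (𝓝 (∫ x, f x ∂(ν β : Measure (Fin k → ℝ))))) ∧
        ((∀ h : ℕ, 0 < h → (h : ℝ) / α ∉ CG a) → ∀ β : ℝ, 0 ≤ β → ν β = μ) ∧
        (∀ i, (∃ h : ℕ, 0 < h ∧ (h : ℝ) / α ∈ CG (fun _ : Fin 1 => a i)) → ∃ β : ℝ, 0 ≤ β ∧ β < α ∧
          (ν β : Measure (Fin k → ℝ)).map (fun x => x i) ≠ (μ : Measure (Fin k → ℝ)).map (fun x => x i)) ∧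
        (α ∉ SK → ∀ β : ℝ, 0 ≤ β → ν β = μ) ∧
        (∀ (d : ℕ) (x y : ℚ), Squarefree d → α = x + y * √(d:ℝ) →
          ((∀ β : ℝ, 0 ≤ β → ν β = μ) ↔ ∀ i, ¬ S2 (a i * d)))) := by
  classical
  obtain ⟨μ, h1, -, h2, -, h4⟩ := gen circ_data a b c ha hP
  refine ⟨μ, h1, h2, ?_⟩
  · intro α hα hirr
    have h5 : ∀ β : ℝ, ∃ ν : ProbabilityMeasure (Fin k → ℝ), 0 ≤ β →
        Integrable (fun x : Fin k → ℝ => ∑ i, x i ^ 2) (ν : Measure (Fin k → ℝ)) ∧
        (∀ f : (Fin k → ℝ) → ℝ, Continuous f → (∃ C : ℝ, ∀ x, |f x| ≤ C * (1 + ∑ i, x i ^ 2)) →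
          Tendsto (fun M : ℕ => (∑ m ∈ Finset.Icc 1 M,
            f (fun i => Ec ((a i:ℝ) * ((⌊α * m + β⌋₊ : ℕ) : ℝ)^2 + b i * (⌊α * m + β⌋₊ : ℕ) + c i))) / M)
            atTop (𝓝 (∫ x, f x ∂(ν : Measure (Fin k → ℝ))))) ∧
        ((∀ h : ℕ, 0 < h → (h : ℝ) / α ∉ CG a) → ν = μ) := by
      intro β
      by_cases hβ : 0 ≤ β
      · obtain ⟨ν, n1, n2, n3⟩ := h4 α β hα hirr hβ
        rw [FG_eq] at n3
        exact ⟨ν, fun _ => ⟨n1, n2, n3⟩⟩
      · exact ⟨μ, fun h => absurd h hβ⟩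
    choose ν hν using h5
    have hA : (∀ h : ℕ, 0 < h → (h : ℝ) / α ∉ CG a) → ∀ β : ℝ, 0 ≤ β → ν β = μ :=
      fun hres β hβ => (hν β hβ).2.2 hres
    have hB : ∀ i, (∃ h : ℕ, 0 < h ∧ (h : ℝ) / α ∈ CG (fun _ : Fin 1 => a i)) → ∃ β : ℝ, 0 ≤ β ∧ β < α ∧
          (ν β : Measure (Fin k → ℝ)).map (fun x => x i) ≠ (μ : Measure (Fin k → ℝ)).map (fun x => x i) := by
      rintro i ⟨h, hh, hres⟩
      by_contra hcon
      push Not at hcon
      obtain ⟨τ, hτ⟩ := sep_main (ha i) (hP i) hα hirr hh hres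
      apply hτ
      have meas : Measurable (fun x : Fin k → ℝ => x i) := measurable_pi_apply i
      refine ⟨((∫ x, Real.cos (τ * x) ∂((μ : Measure (Fin k → ℝ)).map (fun x => x i)) : ℝ) : ℂ) +
        ((∫ x, Real.sin (τ * x) ∂((μ : Measure (Fin k → ℝ)).map (fun x => x i)) : ℝ) : ℂ) * Complex.I, ?_⟩
      intro β hβ0 hβ1
      have hbd : ∀ g : ℝ → ℝ, (∀ x, |g x| ≤ 1) → ∃ C : ℝ, ∀ x : Fin k → ℝ, |g (x i)| ≤ C * (1 + ∑ i, x i ^ 2) := by
        intro g hg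
        refine ⟨1, fun x => (hg _).trans ?_⟩
        have : 0 ≤ ∑ i, x i ^ 2 := Finset.sum_nonneg fun i _ => sq_nonneg _
        linarith
      have hc := (hν β hβ0).2.1 (fun x => Real.cos (τ * x i)) (by fun_prop) (hbd (fun t => Real.cos (τ * t)) fun x => Real.abs_cos_le_one _)
      have hs := (hν β hβ0).2.1 (fun x => Real.sin (τ * x i)) (by fun_prop) (hbd (fun t => Real.sin (τ * t)) fun x => Real.abs_sin_le_one _)
      have ec : ∫ x, Real.cos (τ * x i) ∂(ν β : Measure (Fin k → ℝ)) =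
          ∫ x, Real.cos (τ * x) ∂((μ : Measure (Fin k → ℝ)).map (fun x => x i)) := by
        rw [← hcon β hβ0 hβ1, integral_map meas.aemeasurable (by fun_prop)]
      have es : ∫ x, Real.sin (τ * x i) ∂(ν β : Measure (Fin k → ℝ)) =
          ∫ x, Real.sin (τ * x) ∂((μ : Measure (Fin k → ℝ)).map (fun x => x i)) := by
        rw [← hcon β hβ0 hβ1, integral_map meas.aemeasurable (by fun_prop)]
      rw [ec] at hc
      rw [es] at hs
      have h6 := ((Complex.continuous_ofReal.tendsto _).comp hc).add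
        (((Complex.continuous_ofReal.tendsto _).comp hs).mul_const Complex.I)
      refine h6.congr (fun M => ?_)
      simp only [Function.comp_apply]
      push_cast
      rw [div_mul_eq_mul_div, ← add_div, Finset.sum_mul, ← Finset.sum_add_distrib]
      congr 1
      refine Finset.sum_congr rfl fun m _ => ?_
      unfold ex
      rw [show (τ:ℂ) * Complex.I * ((Ec ((a i:ℝ) * ((⌊α * m + β⌋₊ : ℕ):ℝ)^2 + b i * (⌊α * m + β⌋₊ : ℕ) + c i) : ℝ) : ℂ) =
        ((τ:ℂ) * ((Ec ((a i:ℝ) * ((⌊α * m + β⌋₊ : ℕ):ℝ)^2 + b i * (⌊α * m + β⌋₊ : ℕ) + c i) : ℝ) : ℂ)) * Complex.I by ring,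
        Complex.exp_mul_I]
    refine ⟨ν, fun β hβ => ⟨(hν β hβ).1, (hν β hβ).2.1⟩, hA, hB, ?_, ?_⟩
    · intro hSK
      exact hA fun h hh => not_res_of_field a hSK h hh
    · intro d x y hd hαd
      have hy : y ≠ 0 := by
        rintro rfl
        apply hirr
        refine ⟨x, ?_⟩
        rw [hαd]; simp
      have hd1 : d ≠ 1 := by
        rintro rfl
        apply hirr
        refine ⟨x + y, ?_⟩
        rw [hαd]; simp
      constructor
      · intro hall i hS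
        have hir : Irrational (√(d:ℝ)) := by
          rw [irrational_sqrt_natCast_iff]
          rintro ⟨r, hr⟩
          rw [hr] at hd
          have := Nat.isUnit_iff.mp (hd r dvd_rfl)
          apply hd1
          rw [hr, this]
        have hα0 : α ≠ 0 := by linarith
        -- the inverse
        have hne : x^2 - y^2 * d ≠ 0 := by
          intro h0
          have h2 : ((x / y : ℚ) : ℝ)^2 = d := by
            have : (x/y)^2 = (d:ℚ) := by
              rw [div_pow, div_eq_iff (pow_ne_zero 2 hy)]; linarith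
            exact_mod_cast this
          apply hir
          refine ⟨|x/y|, ?_⟩
          rw [← h2, Real.sqrt_sq_eq_abs]
          push_cast; rfl
        have hne' : ((x:ℝ)^2 - (y:ℝ)^2 * d) ≠ 0 := by exact_mod_cast hne
        have hsq : √(d:ℝ) ^ 2 = d := Real.sq_sqrt (Nat.cast_nonneg d)
        have hinv : 1 / α = ((x / (x^2 - y^2 * d) : ℚ) : ℝ) + ((-y / (x^2 - y^2 * d) : ℚ) : ℝ) * √(d:ℝ) := by
          rw [div_eq_iff hα0, hαd]
          push_cast
          field_simp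
          ring_nf
          rw [hsq]
        obtain ⟨h, hh, hmem⟩ := res_of_quad (ha i) hS (p := x / (x^2 - y^2 * d)) (q := -y / (x^2 - y^2 * d))
        rw [← hinv, mul_one_div] at hmem
        obtain ⟨β, hβ0, -, hβ2⟩ := hB i ⟨h, hh, hmem⟩
        apply hβ2
        rw [hall β hβ0]
      · intro hS
        apply hA
        intro h hh
        rw [hαd]
        exact not_res_of_quad ha hd hd1 hS hy h hh

end Pool.Agent.Q209.GC
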